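import Mathlib

/-!
# Approximation of continuous functions on a circle by real parts of entire functions
-/

set_option autoImplicit false

open Set Filter Topology Metric

namespace Pool.Agent.K9h3.TC

/-- a point of the circle of radius `R` in terms of the additive circle -/
theorem exists_angle {R : ℝ} (hR : 0 < R) {z : ℂ} (hz : ‖z‖ = R) :
    ∃ θ : AddCircle (1 : ℝ), (R : ℂ) * (AddCircle.toCircle θ : ℂ) = z := by
  have hRc : (R : ℂ) ≠ 0 := by exact_mod_cast hR.ne'
  refine ⟨((Complex.arg z / (2 * Real.pi) : ℝ) : AddCircle (1 : ℝ)), ?_⟩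
  rw [AddCircle.toCircle_apply_mk, Circle.coe_exp]
  have h1 : (2 * Real.pi / 1 * (Complex.arg z / (2 * Real.pi)) : ℝ) = Complex.arg z := by
    field_simp
  rw [h1, ← hz]
  exact Complex.norm_mul_exp_arg_mul_I z

/-- real parts of entire functions are dense in the continuous functions on a circle -/
theorem approx {U : ℂ → ℝ} {R : ℝ} (hR : 0 < R) (hU : ContinuousOn U (sphere 0 R)) :
    ∃ q : ℂ → ℂ, Differentiable ℂ q ∧ ∀ z, ‖z‖ = R → |(q z).re - U z| ≤ 1 := by
  have hRc : (R : ℂ) ≠ 0 := by exact_mod_cast hR.ne'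
  have hmem : ∀ θ : AddCircle (1 : ℝ), (R : ℂ) * (AddCircle.toCircle θ : ℂ) ∈ sphere (0 : ℂ) R := by
    intro θ
    rw [mem_sphere_zero_iff_norm, norm_mul, Complex.norm_real, Real.norm_of_nonneg hR.le,
      Circle.norm_coe, mul_one]
  have hc1 : Continuous (fun θ : AddCircle (1 : ℝ) => (R : ℂ) * (AddCircle.toCircle θ : ℂ)) :=
    continuous_const.mul (continuous_subtype_val.comp AddCircle.continuous_toCircle)
  have hc2 : Continuous (fun θ : AddCircle (1 : ℝ) => U ((R : ℂ) * (AddCircle.toCircle θ : ℂ))) :=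
    hU.comp_continuous hc1 hmem
  set f : C(AddCircle (1 : ℝ), ℂ) :=
    ⟨fun θ => ((U ((R : ℂ) * (AddCircle.toCircle θ : ℂ)) : ℝ) : ℂ),
      Complex.continuous_ofReal.comp hc2⟩ with hf
  have hfcl : f ∈ (Submodule.span ℂ (range (@fourier (1 : ℝ)))).topologicalClosure := by
    rw [span_fourier_closure_eq_top]
    exact Submodule.mem_top
  have hfcl2 : f ∈ closure ((Submodule.span ℂ (range (@fourier (1 : ℝ))) :
      Submodule ℂ C(AddCircle (1 : ℝ), ℂ)) : Set C(AddCircle (1 : ℝ), ℂ)) := hfcl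
  obtain ⟨g, hg, hfg⟩ := Metric.mem_closure_iff.1 hfcl2 1 one_pos
  obtain ⟨c, hc⟩ := Finsupp.mem_span_range_iff_exists_finsupp.1 hg
  set q : ℂ → ℂ := fun z => ∑ n ∈ c.support,
    (if 0 ≤ n then c n * (z / R) ^ n.toNat else (starRingEnd ℂ) (c n) * (z / R) ^ (-n).toNat) with hq
  refine ⟨q, ?_, ?_⟩
  · rw [hq]
    refine Differentiable.fun_sum fun n _ => ?_
    split_ifs
    · fun_prop
    · fun_prop
  · intro z hz
    obtain ⟨θ, hθ⟩ := exists_angle hR hz
    have hzR : z / R = (AddCircle.toCircle θ : ℂ) := by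
      rw [← hθ, mul_div_cancel_left₀ _ hRc]
    have hgz : (q z).re = (g θ).re := by
      have h1 : g θ = ∑ n ∈ c.support, c n * fourier n θ := by
        rw [← hc, Finsupp.sum]
        simp
      rw [h1, hq]
      simp only
      rw [Complex.re_sum, Complex.re_sum]
      refine Finset.sum_congr rfl fun n _ => ?_
      have hfn : (fourier n θ : ℂ) = (AddCircle.toCircle θ : ℂ) ^ n := by
        rw [fourier_apply, AddCircle.toCircle_zsmul, Circle.coe_zpow]
      rw [hfn, hzR]
      split_ifs with hn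
      · congr 2
        conv_rhs => rw [← Int.toNat_of_nonneg hn]
        rw [zpow_natCast]
      · have hn' : 0 ≤ -n := by omega
        have h2 : (AddCircle.toCircle θ : ℂ) ^ n =
            (starRingEnd ℂ) ((AddCircle.toCircle θ : ℂ) ^ (-n).toNat) := by
          rw [map_pow, ← Circle.coe_inv_eq_conj, ← zpow_natCast, Int.toNat_of_nonneg hn',
            Circle.coe_inv, inv_zpow', neg_neg]
        rw [h2, ← Complex.conj_re (c n * _), map_mul, Complex.conj_conj]
    have h3 : ‖f θ - g θ‖ < 1 := by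
      have := ContinuousMap.dist_lt_iff (f := f) (g := g) one_pos |>.1 hfg θ
      rwa [dist_eq_norm] at this
    have h4 : (f θ).re = U z := by
      rw [hf]
      simp [hθ]
    rw [hgz, ← h4, abs_sub_comm, ← Complex.sub_re]
    exact (Complex.abs_re_le_norm _).trans h3.le

end Pool.Agent.K9h3.TC
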