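import Mathlib

/-!
# Vectors of length three and homogeneous forms in three variables

Elementary algebra of the bilinear pairing and the cross product on `ℂ³`, gradients of forms,
and divided differences of forms.
-/

set_option autoImplicit false

open Set Filter Topology

namespace Pool.Agent.K9h3.TC

/-- vectors of length three -/
abbrev V3 := Fin 3 → ℂ

/-- polynomials in three variables -/
abbrev P3 := MvPolynomial (Fin 3) ℂ

/-- the bilinear pairing -/
def dt (a b : V3) : ℂ := a 0 * b 0 + a 1 * b 1 + a 2 * b 2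

/-- the cross product -/
def cr (a b : V3) : V3 :=
  ![a 1 * b 2 - a 2 * b 1, a 2 * b 0 - a 0 * b 2, a 0 * b 1 - a 1 * b 0]

/-- the gradient -/
noncomputable def gr (P : P3) (x : V3) : V3 := fun i => MvPolynomial.eval x (MvPolynomial.pderiv i P)

@[simp] theorem cr_zero_apply (a b : V3) : cr a b 0 = a 1 * b 2 - a 2 * b 1 := rfl
@[simp] theorem cr_one_apply (a b : V3) : cr a b 1 = a 2 * b 0 - a 0 * b 2 := rfl
@[simp] theorem cr_two_apply (a b : V3) : cr a b 2 = a 0 * b 1 - a 1 * b 0 := rfl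

theorem ext3 {a b : V3} (h0 : a 0 = b 0) (h1 : a 1 = b 1) (h2 : a 2 = b 2) : a = b := by
  funext i
  fin_cases i
  · exact h0
  · exact h1
  · exact h2

theorem le3 (a : V3) (i : Fin 3) : ‖a i‖ ≤ ‖a‖ := norm_le_pi_norm a i

theorem norm3_le {a : V3} {r : ℝ} (hr : 0 ≤ r) (h0 : ‖a 0‖ ≤ r) (h1 : ‖a 1‖ ≤ r)
    (h2 : ‖a 2‖ ≤ r) : ‖a‖ ≤ r := by
  rw [pi_norm_le_iff_of_nonneg hr]
  intro i
  fin_cases i
  · exact h0
  · exact h1
  · exact h2

theorem exists_max (a : V3) : ∃ i, ‖a i‖ = ‖a‖ := by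
  by_contra hcon
  push Not at hcon
  have h : ∀ i, ‖a i‖ < ‖a‖ := fun i => lt_of_le_of_ne (le3 a i) (hcon i)
  have h2 : ‖a‖ < ‖a‖ := by
    rw [pi_norm_lt_iff (lt_of_le_of_lt (norm_nonneg _) (h 0))]
    exact h
  exact lt_irrefl _ h2

theorem norm_dt_le (a b : V3) : ‖dt a b‖ ≤ 3 * ‖a‖ * ‖b‖ := by
  have h : ∀ i, ‖a i * b i‖ ≤ ‖a‖ * ‖b‖ := fun i => by
    rw [norm_mul]
    exact mul_le_mul (le3 a i) (le3 b i) (norm_nonneg _) (norm_nonneg _)
  unfold dt
  calc ‖a 0 * b 0 + a 1 * b 1 + a 2 * b 2‖ ≤ ‖a 0 * b 0‖ + ‖a 1 * b 1‖ + ‖a 2 * b 2‖ :=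
        norm_add₃_le
    _ ≤ 3 * ‖a‖ * ‖b‖ := by
        have := h 0
        have := h 1
        have := h 2
        linarith

theorem norm_cr_le (a b : V3) : ‖cr a b‖ ≤ 2 * ‖a‖ * ‖b‖ := by
  have h : ∀ i j, ‖a i * b j‖ ≤ ‖a‖ * ‖b‖ := fun i j => by
    rw [norm_mul]
    exact mul_le_mul (le3 a i) (le3 b j) (norm_nonneg _) (norm_nonneg _)
  have h0 : 0 ≤ 2 * ‖a‖ * ‖b‖ := by positivity
  have key : ∀ i j k l, ‖a i * b j - a k * b l‖ ≤ 2 * ‖a‖ * ‖b‖ := fun i j k l => by
    have h1 := h i j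
    have h2 := h k l
    have h3 := norm_sub_le (a i * b j) (a k * b l)
    linarith
  exact norm3_le h0 (key _ _ _ _) (key _ _ _ _) (key _ _ _ _)

theorem dt_comm (a b : V3) : dt a b = dt b a := by
  unfold dt; ring

theorem dt_add (a b c : V3) : dt a (b + c) = dt a b + dt a c := by
  simp only [dt, Pi.add_apply]; ring

theorem dt_sub (a b c : V3) : dt a (b - c) = dt a b - dt a c := by
  simp only [dt, Pi.sub_apply]; ring

theorem dt_smul (a b : V3) (c : ℂ) : dt a (c • b) = c * dt a b := by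
  simp only [dt, Pi.smul_apply, smul_eq_mul]; ring

theorem smul_dt (a b : V3) (c : ℂ) : dt (c • a) b = c * dt a b := by
  simp only [dt, Pi.smul_apply, smul_eq_mul]; ring

theorem cr_smul (a b : V3) (c : ℂ) : cr a (c • b) = c • cr a b := by
  refine ext3 ?_ ?_ ?_ <;> simp only [cr_zero_apply, cr_one_apply, cr_two_apply, Pi.smul_apply,
    smul_eq_mul] <;> ring

theorem smul_cr (a b : V3) (c : ℂ) : cr (c • a) b = c • cr a b := by
  refine ext3 ?_ ?_ ?_ <;> simp only [cr_zero_apply, cr_one_apply, cr_two_apply, Pi.smul_apply,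
    smul_eq_mul] <;> ring

theorem cr_sub (a b c : V3) : cr a (b - c) = cr a b - cr a c := by
  refine ext3 ?_ ?_ ?_ <;> simp only [cr_zero_apply, cr_one_apply, cr_two_apply, Pi.sub_apply]
    <;> ring

theorem sub_cr (a b c : V3) : cr (a - b) c = cr a c - cr b c := by
  refine ext3 ?_ ?_ ?_ <;> simp only [cr_zero_apply, cr_one_apply, cr_two_apply, Pi.sub_apply]
    <;> ring

theorem cr_self (a : V3) : cr a a = 0 := by
  refine ext3 ?_ ?_ ?_ <;> simp only [cr_zero_apply, cr_one_apply, cr_two_apply, Pi.zero_apply]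
    <;> ring

theorem cr_comm (a b : V3) : cr a b = - cr b a := by
  refine ext3 ?_ ?_ ?_ <;> simp only [cr_zero_apply, cr_one_apply, cr_two_apply, Pi.neg_apply]
    <;> ring

theorem dt_cr_cr (a b c d : V3) : dt (cr a b) (cr c d) = dt a c * dt b d - dt a d * dt b c := by
  simp only [dt, cr_zero_apply, cr_one_apply, cr_two_apply]; ring

theorem cr_cr (a b c : V3) : cr a (cr b c) = dt a c • b - dt a b • c := by
  refine ext3 ?_ ?_ ?_ <;> simp only [dt, cr_zero_apply, cr_one_apply, cr_two_apply,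
    Pi.sub_apply, Pi.smul_apply, smul_eq_mul] <;> ring

/-- a vector orthogonal to both factors is parallel to the cross product -/
theorem cr_cr_of_orth {d a b : V3} (ha : dt a d = 0) (hb : dt b d = 0) : cr d (cr a b) = 0 := by
  rw [cr_cr, dt_comm d b, dt_comm d a, ha, hb, zero_smul, zero_smul, sub_zero]

/-- parallel vectors -/
theorem parallel {a b : V3} (h : cr a b = 0) {j : Fin 3} (hj : b j ≠ 0) :
    a = (a j / b j) • b := by
  have h0 : a 1 * b 2 - a 2 * b 1 = 0 := congrFun h 0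
  have h1 : a 2 * b 0 - a 0 * b 2 = 0 := congrFun h 1
  have h2 : a 0 * b 1 - a 1 * b 0 = 0 := congrFun h 2
  have key : ∀ i, a i * b j = a j * b i := by
    intro i
    fin_cases j <;> fin_cases i <;> simp only [Fin.zero_eta, Fin.mk_one, Fin.reduceFinMk] <;>
      first
        | rfl
        | linear_combination h0
        | linear_combination - h0
        | linear_combination h1
        | linear_combination - h1
        | linear_combination h2
        | linear_combination - h2
  funext i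
  rw [Pi.smul_apply, smul_eq_mul, div_mul_eq_mul_div, eq_div_iff hj, key i]

/-- a form of degree `d` with a divided difference -/
structure HasDD (P : P3) (d : ℕ) (A : V3 → V3 → V3) : Prop where
  evh : ∀ (c : ℂ) (x : V3), MvPolynomial.eval (c • x) P = c ^ d * MvPolynomial.eval x P
  diff : ∀ x y, MvPolynomial.eval y P - MvPolynomial.eval x P = dt (A x y) (y - x)
  diag : ∀ x, A x x = gr P x
  hom : ∀ (c : ℂ) (x y : V3), c • A (c • x) (c • y) = c ^ d • A x y
  dif : Differentiable ℂ (fun p : V3 × V3 => A p.1 p.2)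

/-- divided difference of a power -/
def gp (p : ℕ) (x y : ℂ) : ℂ := ∑ i ∈ Finset.range p, y ^ i * x ^ (p - 1 - i)

theorem gp_mul (p : ℕ) (x y : ℂ) : gp p x y * (y - x) = y ^ p - x ^ p :=
  geom_sum₂_mul y x p

theorem gp_diag (p : ℕ) (x : ℂ) : gp p x x = p * x ^ (p - 1) := by
  unfold gp
  rw [Finset.sum_congr rfl (g := fun _ => x ^ (p - 1)), Finset.sum_const, Finset.card_range,
    nsmul_eq_mul]
  intro i hi
  rw [← pow_add]
  congr 1
  have := Finset.mem_range.1 hi
  omega

theorem gp_hom (p : ℕ) (c x y : ℂ) : c * gp p (c * x) (c * y) = c ^ p * gp p x y := by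
  unfold gp
  rw [Finset.mul_sum, Finset.mul_sum]
  refine Finset.sum_congr rfl fun i hi => ?_
  have h1 := Finset.mem_range.1 hi
  have h2 : c ^ p = c * c ^ i * c ^ (p - 1 - i) := by
    rw [mul_assoc, ← pow_add, ← pow_succ']
    congr 1
    omega
  rw [h2, mul_pow, mul_pow]
  ring

theorem gp_diff (p : ℕ) : Differentiable ℂ (fun q : ℂ × ℂ => gp p q.1 q.2) := by
  unfold gp
  fun_prop

theorem exists_dd_monomial (s : Fin 3 →₀ ℕ) (c : ℂ) :
    ∃ A, HasDD (MvPolynomial.monomial s c) (s 0 + s 1 + s 2) A := by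
  have hev : ∀ x : V3, MvPolynomial.eval x (MvPolynomial.monomial s c) =
      c * (x 0 ^ s 0 * x 1 ^ s 1 * x 2 ^ s 2) := by
    intro x
    rw [MvPolynomial.eval_monomial, Finsupp.prod_fintype _ _ (fun i => pow_zero _),
      Fin.prod_univ_three]
  refine ⟨fun x y => ![c * (gp (s 0) (x 0) (y 0) * y 1 ^ s 1 * y 2 ^ s 2),
    c * (x 0 ^ s 0 * gp (s 1) (x 1) (y 1) * y 2 ^ s 2),
    c * (x 0 ^ s 0 * x 1 ^ s 1 * gp (s 2) (x 2) (y 2))], ?_, ?_, ?_, ?_, ?_⟩
  · intro t x
    rw [hev, hev]
    simp only [Pi.smul_apply, smul_eq_mul, mul_pow]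
    ring
  · intro x y
    rw [hev, hev]
    have h0 := gp_mul (s 0) (x 0) (y 0)
    have h1 := gp_mul (s 1) (x 1) (y 1)
    have h2 := gp_mul (s 2) (x 2) (y 2)
    simp only [dt, Pi.sub_apply, Matrix.cons_val_zero, Matrix.cons_val_one, Matrix.cons_val_two,
      Matrix.head_cons, Matrix.tail_cons, Matrix.cons_val]
    linear_combination (-(c * y 1 ^ s 1 * y 2 ^ s 2)) * h0 + (-(c * x 0 ^ s 0 * y 2 ^ s 2)) * h1 +
      (-(c * x 0 ^ s 0 * x 1 ^ s 1)) * h2
  · intro x
    have hg : ∀ i, gr (MvPolynomial.monomial s c) x i =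
        c * s i * ∏ j, x j ^ ((s - Finsupp.single i 1 : Fin 3 →₀ ℕ) j) := by
      intro i
      unfold gr
      rw [MvPolynomial.pderiv_monomial, MvPolynomial.eval_monomial,
        Finsupp.prod_fintype _ _ (fun i => pow_zero _)]
    refine ext3 ?_ ?_ ?_
    · rw [hg, Fin.prod_univ_three]
      simp [gp_diag]
      ring
    · rw [hg, Fin.prod_univ_three]
      simp [gp_diag]
      ring
    · rw [hg, Fin.prod_univ_three]
      simp [gp_diag]
      ring
  · intro t x y
    have h0 := gp_hom (s 0) t (x 0) (y 0)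
    have h1 := gp_hom (s 1) t (x 1) (y 1)
    have h2 := gp_hom (s 2) t (x 2) (y 2)
    refine ext3 ?_ ?_ ?_
    · simp only [Pi.smul_apply, smul_eq_mul, Matrix.cons_val_zero, mul_pow, pow_add]
      linear_combination (c * (t ^ s 1 * y 1 ^ s 1) * (t ^ s 2 * y 2 ^ s 2)) * h0
    · simp only [Pi.smul_apply, smul_eq_mul, Matrix.cons_val_one, Matrix.cons_val_zero, mul_pow,
        pow_add]
      linear_combination (c * (t ^ s 0 * x 0 ^ s 0) * (t ^ s 2 * y 2 ^ s 2)) * h1
    · simp only [Pi.smul_apply, smul_eq_mul, Matrix.cons_val, mul_pow,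
        pow_add]
      linear_combination (c * (t ^ s 0 * x 0 ^ s 0) * (t ^ s 1 * x 1 ^ s 1)) * h2
  · rw [differentiable_pi]
    have g0 : Differentiable ℂ (fun p : V3 × V3 => gp (s 0) (p.1 0) (p.2 0)) :=
      (gp_diff (s 0)).comp (f := fun p : V3 × V3 => (p.1 0, p.2 0)) (by fun_prop)
    have g1 : Differentiable ℂ (fun p : V3 × V3 => gp (s 1) (p.1 1) (p.2 1)) :=
      (gp_diff (s 1)).comp (f := fun p : V3 × V3 => (p.1 1, p.2 1)) (by fun_prop)
    have g2 : Differentiable ℂ (fun p : V3 × V3 => gp (s 2) (p.1 2) (p.2 2)) :=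
      (gp_diff (s 2)).comp (f := fun p : V3 × V3 => (p.1 2, p.2 2)) (by fun_prop)
    intro i
    fin_cases i
    · simp only [Fin.zero_eta, Matrix.cons_val_zero]
      fun_prop
    · simp only [Fin.mk_one, Matrix.cons_val_one, Matrix.cons_val_zero]
      fun_prop
    · simp only [Fin.reduceFinMk, Matrix.cons_val]
      fun_prop

theorem gr_add (P Q : P3) (x : V3) : gr (P + Q) x = gr P x + gr Q x := by
  funext i
  simp [gr]

theorem gr_zero (x : V3) : gr 0 x = 0 := by
  funext i
  simp [gr]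

/-- every form has a divided difference -/
theorem exists_dd {P : P3} {d : ℕ} (hP : P.IsHomogeneous d) : ∃ A, HasDD P d A := by
  rw [← MvPolynomial.support_sum_monomial_coeff P]
  have key : ∀ t : Finset (Fin 3 →₀ ℕ), t ⊆ P.support →
      ∃ A, HasDD (∑ v ∈ t, MvPolynomial.monomial v (MvPolynomial.coeff v P)) d A := by
    intro t
    induction t using Finset.induction_on with
    | empty =>
      intro _
      refine ⟨fun _ _ => 0, ?_, ?_, ?_, ?_, ?_⟩
      · intro c x; simp
      · intro x y; simp [dt]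
      · intro x; simp [gr_zero]
      · intro c x y; simp
      · fun_prop
    | insert s t hs ih =>
      intro hst
      obtain ⟨A, hA⟩ := ih fun v hv => hst (Finset.mem_insert_of_mem hv)
      obtain ⟨A', hA'⟩ := exists_dd_monomial s (MvPolynomial.coeff s P)
      have hd : s 0 + s 1 + s 2 = d := by
        have h1 := hP (MvPolynomial.mem_support_iff.1 (hst (Finset.mem_insert_self _ _)))
        rw [← h1]
        simp [Finsupp.weight_apply, Finsupp.sum_fintype, Fin.sum_univ_three]
      rw [hd] at hA'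
      rw [Finset.sum_insert hs]
      refine ⟨fun x y => A' x y + A x y, ?_, ?_, ?_, ?_, ?_⟩
      · intro c x
        rw [map_add, map_add, hA.evh, hA'.evh]
        ring
      · intro x y
        have h1 := hA.diff x y
        have h2 := hA'.diff x y
        rw [map_add, map_add]
        have h3 : dt (A' x y + A x y) (y - x) = dt (A' x y) (y - x) + dt (A x y) (y - x) := by
          simp only [dt, Pi.add_apply]; ring
        rw [h3, ← h1, ← h2]
        ring
      · intro x
        rw [gr_add, hA.diag, hA'.diag]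
      · intro c x y
        rw [smul_add, smul_add, hA.hom, hA'.hom]
      · exact hA'.dif.add hA.dif
  exact key _ (Finset.Subset.refl _)

end Pool.Agent.K9h3.TC
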