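import Pool.Agent.K9h3.TC.Base

/-!
# Functions dominated by an exponential are conjugate to it; three circles
-/

set_option autoImplicit false

open Set Filter Topology Metric

namespace Pool.Agent.K9h3.TC

/-- a function dominated by a multiple of the exponential on a disc, with equality at the centre,
is the exponential after a change of variable -/
theorem fac {k : ℂ → ℂ} {L ε : ℝ} (hk : DifferentiableOn ℂ k (ball 0 (2 * L))) (h0 : k 0 ≠ 0)
    (hε : 0 < ε) (hε1 : ε ≤ 1 / 48) (hL : 2 ≤ L)
    (hb : ∀ w, ‖w‖ < 2 * L → ‖k w‖ ≤ ‖k 0‖ * Real.exp (w.re + ε)) :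
    ∃ σ : ℂ → ℂ, DifferentiableOn ℂ σ (ball 0 (L - 1)) ∧
      (∀ u ∈ ball (0 : ℂ) (L - 1), ‖σ u - u‖ ≤ 6 * ε ∧ k (σ u) = k 0 * Complex.exp u) ∧
      ∀ w ∈ ball (0 : ℂ) (L - 2), ∃ u ∈ ball (0 : ℂ) (L - 1), ‖u - w‖ ≤ 6 * ε ∧ σ u = w := by
  have hn0 : 0 < ‖k 0‖ := norm_pos_iff.2 h0
  set f : ℂ → ℂ := fun w => k w / (k 0 * Complex.exp w) - 1 with hf
  have hden : ∀ w, k 0 * Complex.exp w ≠ 0 := fun w => mul_ne_zero h0 (Complex.exp_ne_zero w)
  have hfd : DifferentiableOn ℂ f (ball 0 (2 * L)) := by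
    refine DifferentiableOn.sub_const ?_ _
    exact hk.div ((differentiable_const _).mul Complex.differentiable_exp).differentiableOn
      fun w _ => hden w
  have hf0 : f 0 = 0 := by
    rw [hf]
    simp only
    rw [Complex.exp_zero, mul_one, div_self h0, sub_self]
  have hfre : MapsTo f (ball 0 (2 * L)) {z | z.re ≤ 2 * ε} := by
    intro w hw
    rw [mem_ball_zero_iff] at hw
    have h1 := hb w hw
    show (k w / (k 0 * Complex.exp w) - 1).re ≤ 2 * ε
    have h2 : ‖k w / (k 0 * Complex.exp w)‖ ≤ Real.exp ε := by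
      rw [norm_div, norm_mul, Complex.norm_exp, div_le_iff₀ (by positivity)]
      refine h1.trans (le_of_eq ?_)
      rw [Real.exp_add]
      ring
    have h3 := (Complex.re_le_norm _).trans h2
    have h4 : Real.exp ε ≤ 1 + 2 * ε := by
      have h5 := Real.abs_exp_sub_one_le (x := ε) (by rw [abs_of_pos hε]; linarith)
      rw [abs_of_pos hε] at h5
      have := le_abs_self (Real.exp ε - 1)
      linarith
    rw [Complex.sub_re, Complex.one_re]
    linarith
  have hfb : ∀ w ∈ ball (0 : ℂ) L, ‖f w‖ ≤ 4 * ε := by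
    intro w hw
    rw [mem_ball_zero_iff] at hw
    have h1 := Complex.borelCaratheodory_zero (M := 2 * ε) (R := 2 * L) (z := w) (by linarith)
      hfd hfre (by linarith) (by rw [mem_ball_zero_iff]; linarith) hf0
    refine h1.trans ?_
    rw [div_le_iff₀ (by linarith)]
    nlinarith [norm_nonneg w]
  have hsl : ∀ w ∈ ball (0 : ℂ) L, 1 + f w ∈ Complex.slitPlane := fun w hw =>
    Complex.mem_slitPlane_of_norm_lt_one (by
      have := hfb w hw
      linarith)
  set κ : ℂ → ℂ := fun w => Complex.log (1 + f w) with hκ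
  have hκd : DifferentiableOn ℂ κ (ball 0 L) := by
    intro w hw
    refine DifferentiableAt.differentiableWithinAt ?_
    have hw2 : w ∈ ball (0 : ℂ) (2 * L) := ball_subset_ball (by linarith) hw
    exact ((differentiableAt_const (1 : ℂ)).add
      ((hfd w hw2).differentiableAt (isOpen_ball.mem_nhds hw2))).clog (hsl w hw)
  have hκb : ∀ w ∈ ball (0 : ℂ) L, ‖κ w‖ ≤ 6 * ε := by
    intro w hw
    have h1 := hfb w hw
    have h2 := Complex.norm_log_one_add_half_le_self (z := f w) (by linarith)
    show ‖Complex.log (1 + f w)‖ ≤ _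
    linarith
  have hkκ : ∀ w ∈ ball (0 : ℂ) L, k w = k 0 * Complex.exp (w + κ w) := by
    intro w hw
    have h1 : Complex.exp (κ w) = 1 + f w := Complex.exp_log (Complex.slitPlane_ne_zero (hsl w hw))
    rw [Complex.exp_add, h1]
    have h2 : 1 + f w = k w / (k 0 * Complex.exp w) := by
      show 1 + (k w / (k 0 * Complex.exp w) - 1) = _
      ring
    rw [h2]
    have := hden w
    field_simp
  have hsub : ball (0 : ℂ) (L - 1 / 2) ⊆ ball (0 : ℂ) L := ball_subset_ball (by linarith)
  have hκ' : ∀ w ∈ ball (0 : ℂ) (L - 1 / 2), ‖deriv κ w‖ ≤ 1 / 2 := by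
    intro w hw
    rw [mem_ball_zero_iff] at hw
    have hcl : closedBall w (1 / 4) ⊆ ball (0 : ℂ) L := by
      intro x hx
      rw [mem_closedBall_iff_norm] at hx
      rw [mem_ball_zero_iff]
      have := norm_le_norm_add_norm_sub' x w
      linarith
    have h1 : DiffContOnCl ℂ κ (ball w (1 / 4)) := by
      apply DifferentiableOn.diffContOnCl
      rw [closure_ball _ (by norm_num)]
      exact hκd.mono hcl
    have h2 := Complex.norm_deriv_le_of_forall_mem_sphere_norm_le (by norm_num) h1
      (C := 6 * ε) fun z hz => hκb z (hcl (sphere_subset_closedBall hz))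
    refine h2.trans ?_
    rw [div_le_iff₀ (by norm_num)]
    linarith
  have hlip : ∀ x ∈ ball (0 : ℂ) (L - 1 / 2), ∀ y ∈ ball (0 : ℂ) (L - 1 / 2),
      ‖κ y - κ x‖ ≤ 1 / 2 * ‖y - x‖ := fun x hx y hy =>
    Convex.norm_image_sub_le_of_norm_deriv_le (𝕜 := ℂ) (f := κ) (C := 1 / 2)
      (fun z hz => (hκd z (hsub hz)).differentiableAt (isOpen_ball.mem_nhds (hsub hz)))
      hκ' (convex_ball _ _) hx hy
  have hex : ∀ u ∈ ball (0 : ℂ) (L - 1), ∃ w ∈ closedBall u (1 / 4 : ℝ), w + κ w = u := by
    intro u hu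
    rw [mem_ball_zero_iff] at hu
    have hcl : closedBall u (1 / 4) ⊆ ball (0 : ℂ) (L - 1 / 2) := by
      intro x hx
      rw [mem_closedBall_iff_norm] at hx
      rw [mem_ball_zero_iff]
      have := norm_le_norm_add_norm_sub' x u
      linarith
    have hmaps : MapsTo (fun w => u - κ w) (closedBall u (1 / 4)) (closedBall u (1 / 4)) := by
      intro w hw
      rw [mem_closedBall_iff_norm]
      have h1 := hκb w (hsub (hcl hw))
      show ‖u - κ w - u‖ ≤ 1 / 4
      rw [sub_sub_cancel_left, norm_neg]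
      linarith
    have hcon : ContractingWith (1 / 2 : NNReal) (hmaps.restrict (fun w => u - κ w) _ _) := by
      refine ⟨?_, LipschitzWith.of_dist_le_mul fun x y => ?_⟩
      · rw [div_lt_one (by norm_num)]
        norm_num
      · have h1 := hlip y (hcl y.2) x (hcl x.2)
        rw [Subtype.dist_eq, Subtype.dist_eq]
        show dist (u - κ x) (u - κ y) ≤ _
        rw [dist_sub_left, dist_eq_norm, dist_eq_norm]
        simpa using h1
    obtain ⟨w, hw, hfix, -⟩ := ContractingWith.exists_fixedPoint' (isClosed_closedBall.isComplete)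
      hmaps hcon (x := u) (mem_closedBall_self (by norm_num)) (edist_ne_top _ _)
    refine ⟨w, hw, ?_⟩
    have h2 : u - κ w = w := hfix
    linear_combination -h2
  choose! σ hσ1 hσ2 using hex
  have hσin : ∀ u ∈ ball (0 : ℂ) (L - 1), σ u ∈ ball (0 : ℂ) (L - 1 / 2) := by
    intro u hu
    have h1 := hσ1 u hu
    rw [mem_closedBall_iff_norm] at h1
    rw [mem_ball_zero_iff] at hu ⊢
    have := norm_le_norm_add_norm_sub' (σ u) u
    linarith
  have hinj : ∀ x ∈ ball (0 : ℂ) (L - 1 / 2), ∀ y ∈ ball (0 : ℂ) (L - 1 / 2),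
      ‖x - y‖ ≤ 2 * ‖(x + κ x) - (y + κ y)‖ := by
    intro x hx y hy
    have h1 := hlip x hx y hy
    have h2 : x - y = ((x + κ x) - (y + κ y)) + (κ y - κ x) := by ring
    have h3 := norm_add_le ((x + κ x) - (y + κ y)) (κ y - κ x)
    rw [← h2] at h3
    rw [norm_sub_rev y x] at h1
    linarith
  refine ⟨σ, ?_, ?_, ?_⟩
  · intro u hu
    have hnb : ball (0 : ℂ) (L - 1) ∈ 𝓝 u := isOpen_ball.mem_nhds hu
    have hcont : ContinuousAt σ u := by
      rw [Metric.continuousAt_iff']
      intro e he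
      filter_upwards [hnb, ball_mem_nhds u (show (0 : ℝ) < e / 2 by linarith)] with y hy hy2
      have h1 := hinj _ (hσin y hy) _ (hσin u hu)
      rw [hσ2 y hy, hσ2 u hu] at h1
      rw [mem_ball_iff_norm] at hy2
      rw [dist_eq_norm]
      linarith
    have hd1 : HasDerivAt (fun w => w + κ w) (1 + deriv κ (σ u)) (σ u) := by
      have h1 := (hκd _ (hsub (hσin u hu))).differentiableAt (isOpen_ball.mem_nhds (hsub (hσin u hu)))
      exact (hasDerivAt_id _).add h1.hasDerivAt
    have hne : 1 + deriv κ (σ u) ≠ 0 := by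
      intro h1
      have h2 := hκ' _ (hσin u hu)
      have h3 : deriv κ (σ u) = -1 := by linear_combination h1
      rw [h3, norm_neg, norm_one] at h2
      norm_num at h2
    have h3 := HasDerivAt.of_local_left_inverse hcont hd1 hne (by
      filter_upwards [hnb] with y hy
      exact hσ2 y hy)
    exact h3.differentiableAt.differentiableWithinAt
  · intro u hu
    have h1 := hκb _ (hsub (hσin u hu))
    have h2 := hσ2 u hu
    constructor
    · have h3 : σ u - u = -κ (σ u) := by linear_combination h2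
      rw [h3, norm_neg]
      exact h1
    · rw [hkκ _ (hsub (hσin u hu)), h2]
  · intro w hw
    rw [mem_ball_zero_iff] at hw
    have hw2 : w ∈ ball (0 : ℂ) (L - 1 / 2) := by
      rw [mem_ball_zero_iff]
      linarith
    have h1 := hκb w (hsub hw2)
    have h2 : w + κ w ∈ ball (0 : ℂ) (L - 1) := by
      rw [mem_ball_zero_iff]
      have := norm_add_le w (κ w)
      linarith
    refine ⟨w + κ w, h2, ?_, ?_⟩
    · rw [add_sub_cancel_left]
      exact h1
    · have h3 := hinj _ (hσin _ h2) _ hw2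
      rw [hσ2 _ h2, sub_self, norm_zero, mul_zero] at h3
      exact sub_eq_zero.1 (norm_le_zero_iff.1 h3)

/-- **three circles** -/
theorem three_circles {g : ℂ → ℂ} {c : ℂ} {A B : ℝ} (hA0 : 0 ≤ A) (hB0 : 0 ≤ B)
    (hg : DifferentiableOn ℂ g (ball c 11)) (hA : ∀ z, ‖z - c‖ ≤ 1 → ‖g z‖ ≤ Real.exp (-A))
    (hB : ∀ z, ‖z - c‖ ≤ 10 → ‖g z‖ ≤ Real.exp B) {z : ℂ} (hz : ‖z - c‖ ≤ Real.pi) :
    ‖g z‖ ≤ Real.exp (-(A / 2) + B / 2) := by
  rcases le_or_gt ‖z - c‖ 1 with h1 | h1
  · refine (hA z h1).trans (Real.exp_le_exp.2 (by linarith))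
  have hl : 0 < Real.log 10 := Real.log_pos (by norm_num)
  set l : ℝ := Real.log 10 with hldef
  set F : ℂ → ℂ := fun s => g (c + Complex.exp (s * l)) with hF
  have hnorm : ∀ s : ℂ, ‖c + Complex.exp (s * l) - c‖ = Real.exp (s.re * l) := by
    intro s
    rw [add_sub_cancel_left, Complex.norm_exp, Complex.re_mul_ofReal]
  have he10 : Real.exp l = 10 := Real.exp_log (by norm_num)
  have hle10 : ∀ s : ℂ, s.re ≤ 1 → ‖c + Complex.exp (s * l) - c‖ ≤ 10 := by
    intro s hs
    rw [hnorm, ← he10]
    exact Real.exp_le_exp.2 (by nlinarith)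
  set s0 : ℂ := Complex.log (z - c) / l with hs0
  have hzc : z - c ≠ 0 := by
    rw [← norm_pos_iff]
    linarith
  have hlc : (l : ℂ) ≠ 0 := by exact_mod_cast hl.ne'
  have hFs0 : F s0 = g z := by
    rw [hF]
    simp only
    rw [hs0, div_mul_cancel₀ _ hlc, Complex.exp_log hzc, add_sub_cancel]
  have hs0re : s0.re = Real.log ‖z - c‖ / l := by
    rw [hs0, Complex.div_ofReal_re, Complex.log_re]
  have hs00 : 0 ≤ s0.re := by
    rw [hs0re]
    exact div_nonneg (Real.log_nonneg h1.le) hl.le
  have hs01 : s0.re ≤ 1 / 2 := by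
    rw [hs0re, div_le_iff₀ hl]
    have h2 : Real.log ‖z - c‖ ≤ Real.log Real.pi := Real.log_le_log (by linarith) hz
    have h3 : 2 * Real.log Real.pi ≤ l := by
      have h4 : Real.log (Real.pi ^ 2) = 2 * Real.log Real.pi := by
        rw [Real.log_pow]
        norm_num
      rw [← h4, hldef]
      apply Real.log_le_log (by positivity)
      have h5 := Real.pi_lt_d2
      have h6 := Real.pi_pos
      nlinarith
    linarith
  have h2 := Complex.HadamardThreeLines.norm_le_interp_of_mem_verticalClosedStrip₀₁' F (z := s0)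
    (a := Real.exp (-A)) (b := Real.exp B) ⟨hs00, by linarith⟩ (by
      apply DifferentiableOn.diffContOnCl
      have hcl : closure (Complex.HadamardThreeLines.verticalStrip 0 1) ⊆ {s : ℂ | s.re ≤ 1} := by
        apply closure_minimal
        · intro s hs
          exact hs.2.le
        · exact isClosed_le Complex.continuous_re continuous_const
      intro s hs
      have h3 := hcl hs
      refine DifferentiableAt.differentiableWithinAt ?_
      have h4 : c + Complex.exp (s * l) ∈ ball c 11 := by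
        rw [mem_ball_iff_norm]
        have := hle10 s h3
        linarith
      have h5 := (hg _ h4).differentiableAt (isOpen_ball.mem_nhds h4)
      have h6 : DifferentiableAt ℂ (fun s : ℂ => c + Complex.exp (s * l)) s := by fun_prop
      exact h5.comp s h6) (by
      refine ⟨Real.exp B, ?_⟩
      rintro _ ⟨s, hs, rfl⟩
      exact hB _ (hle10 s hs.2)) (fun s hs => by
      have hs' : s.re = 0 := hs
      refine hA _ ?_
      rw [hnorm, hs', zero_mul, Real.exp_zero]) (fun s hs => by
      have hs' : s.re = 1 := hs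
      exact hB _ (hle10 s hs'.le))
  rw [hFs0, ← Real.exp_mul, ← Real.exp_mul, ← Real.exp_add] at h2
  refine h2.trans (Real.exp_le_exp.2 ?_)
  nlinarith

end Pool.Agent.K9h3.TC
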