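import Pool.Agent.K9h3.TC.Base

/-!
# A rectangle lemma and a rotation argument
-/

set_option autoImplicit false

open Set Filter Topology Metric

namespace Pool.Agent.K9h3.TC

open Complex in
/-- **rectangle lemma** -/
theorem rect {Γ : ℂ → ℂ} {T l : ℝ} (hΓ : DifferentiableOn ℂ Γ (ball 0 (l + 4))) (hT : 0 ≤ T)
    (hl : 1 ≤ l)
    (hb : ∀ w : ℂ, |w.re| ≤ l → |w.im| ≤ Real.pi → ‖Γ w‖ ≤ Real.exp (-(T * Real.exp w.re))) :
    ∀ y : ℝ, |y| ≤ 1 → ‖Γ (y * Complex.I)‖ ≤ Real.exp (-(T * Real.exp (l / 2) / 4)) := by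
  intro y hy
  have hπ := Real.pi_pos
  have hπ3 := Real.pi_gt_three
  set K : ℝ := T * Real.exp (l / 2) with hK
  have hK0 : 0 ≤ K := by positivity
  set F : ℂ → ℂ := fun w => Γ w * Complex.exp (K * (Complex.exp (w / 2) - Complex.exp (-w / 2) / 2))
    with hF
  have hFd : DifferentiableOn ℂ F (ball 0 (l + 4)) := hΓ.mul (by fun_prop)
  have hFn : ∀ w : ℂ, ‖F w‖ = ‖Γ w‖ * Real.exp (K * (Real.cos (w.im / 2) *
      (Real.exp (w.re / 2) - Real.exp (-(w.re / 2)) / 2))) := by
    intro w
    rw [hF]
    simp only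
    rw [norm_mul, Complex.norm_exp, Complex.re_ofReal_mul]
    congr 3
    have e1 : (w / 2).re = w.re / 2 := by
      have : (2 : ℂ) = ((2 : ℝ) : ℂ) := by norm_num
      rw [this, Complex.div_ofReal_re]
    have e2 : (w / 2).im = w.im / 2 := by
      have : (2 : ℂ) = ((2 : ℝ) : ℂ) := by norm_num
      rw [this, Complex.div_ofReal_im]
    have e3 : (-w / 2).re = -(w.re / 2) := by
      rw [neg_div, Complex.neg_re, e1]
    have e4 : (-w / 2).im = -(w.im / 2) := by
      rw [neg_div, Complex.neg_im, e2]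
    have e5 : (Complex.exp (-w / 2) / 2).re = (Complex.exp (-w / 2)).re / 2 := by
      have : (2 : ℂ) = ((2 : ℝ) : ℂ) := by norm_num
      rw [this, Complex.div_ofReal_re]
    rw [Complex.sub_re, e5, Complex.exp_re, Complex.exp_re, e1, e2, e3, e4, Real.cos_neg]
    ring
  have hcos : ∀ y : ℝ, |y| ≤ Real.pi → 0 ≤ Real.cos (y / 2) := by
    intro y hy
    rw [abs_le] at hy
    exact Real.cos_nonneg_of_mem_Icc ⟨by linarith, by linarith⟩
  set U : Set ℂ := Ioo (-l) l ×ℂ Ioo (-Real.pi) Real.pi with hU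
  have hUb : Bornology.IsBounded U := (Metric.isBounded_Ioo _ _).reProdIm (Metric.isBounded_Ioo _ _)
  have hlt : -l < l := by linarith
  have hπlt : -Real.pi < Real.pi := by linarith
  have hfr : ∀ w ∈ frontier U, ‖F w‖ ≤ 1 := by
    intro w hw
    rw [hU, frontier_reProdIm, closure_Ioo hlt.ne, closure_Ioo hπlt.ne, frontier_Ioo hlt,
      frontier_Ioo hπlt] at hw
    rcases hw with ⟨hre, him⟩ | ⟨hre, him⟩
    · have hre' : |w.re| ≤ l := abs_le.2 hre
      have him' : w.im = -Real.pi ∨ w.im = Real.pi := him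
      have h1 : |w.im| ≤ Real.pi := by
        rcases him' with h | h
        · rw [h, abs_neg, abs_of_pos hπ]
        · rw [h, abs_of_pos hπ]
      have h2 : Real.cos (w.im / 2) = 0 := by
        rcases him' with h | h
        · rw [h, neg_div, Real.cos_neg, Real.cos_pi_div_two]
        · rw [h, Real.cos_pi_div_two]
      rw [hFn, h2, zero_mul, mul_zero, Real.exp_zero, mul_one]
      refine (hb w hre' h1).trans ?_
      rw [Real.exp_le_one_iff]
      have : 0 ≤ T * Real.exp w.re := by positivity
      linarith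
    · have him' : |w.im| ≤ Real.pi := abs_le.2 him
      have hre' : w.re = -l ∨ w.re = l := hre
      have h1 : |w.re| ≤ l := by
        rcases hre' with h | h
        · rw [h, abs_neg, abs_of_pos (by linarith)]
        · rw [h, abs_of_pos (by linarith)]
      have h2 := hb w h1 him'
      have h3 := hcos w.im him'
      have h4 := Real.cos_le_one (w.im / 2)
      rw [hFn]
      refine (mul_le_mul_of_nonneg_right h2 (Real.exp_pos _).le).trans ?_
      rw [← Real.exp_add, Real.exp_le_one_iff]
      have h5 : 0 ≤ T * Real.exp w.re := by positivity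
      rcases hre' with h | h
      · have h6 : Real.exp (w.re / 2) - Real.exp (-(w.re / 2)) / 2 ≤ 0 := by
          rw [h]
          have e1 : -l / 2 = -(l / 2) := by ring
          rw [e1, neg_neg, sub_nonpos]
          have h7 : Real.exp (l / 2) = Real.exp (-(l / 2)) * Real.exp l := by
            rw [← Real.exp_add]
            congr 1
            ring
          have h8 : 2 ≤ Real.exp l := by
            have := Real.add_one_le_exp l
            linarith
          have h9 := Real.exp_pos (-(l / 2))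
          rw [h7]
          nlinarith
        have h7 : K * (Real.cos (w.im / 2) *
            (Real.exp (w.re / 2) - Real.exp (-(w.re / 2)) / 2)) ≤ 0 :=
          mul_nonpos_of_nonneg_of_nonpos hK0 (mul_nonpos_of_nonneg_of_nonpos h3 h6)
        linarith
      · have h6 : Real.cos (w.im / 2) * (Real.exp (w.re / 2) - Real.exp (-(w.re / 2)) / 2) ≤
            Real.exp (l / 2) := by
          rw [h]
          have h7 := Real.exp_pos (-(l / 2))
          have h8 := Real.exp_pos (l / 2)
          have h9 : Real.cos (w.im / 2) * (Real.exp (l / 2) - Real.exp (-(l / 2)) / 2) ≤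
              Real.cos (w.im / 2) * Real.exp (l / 2) :=
            mul_le_mul_of_nonneg_left (by linarith) h3
          have h10 : Real.cos (w.im / 2) * Real.exp (l / 2) ≤ 1 * Real.exp (l / 2) :=
            mul_le_mul_of_nonneg_right h4 h8.le
          linarith
        have h7 := mul_le_mul_of_nonneg_left h6 hK0
        have h8 : K * Real.exp (l / 2) = T * Real.exp w.re := by
          rw [hK, h, mul_assoc, ← Real.exp_add]
          congr 2
          ring
        linarith
  have hmem : (y * Complex.I : ℂ) ∈ closure U := by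
    apply subset_closure
    rw [hU, Complex.mem_reProdIm]
    have h1 : (y * Complex.I : ℂ).re = 0 := by simp
    have h2 : (y * Complex.I : ℂ).im = y := by simp
    rw [h1, h2]
    rw [abs_le] at hy
    exact ⟨⟨by linarith, by linarith⟩, by linarith, by linarith⟩
  have hUcl : closure U ⊆ ball (0 : ℂ) (l + 4) := by
    have hcl : closure U ⊆ {w : ℂ | |w.re| ≤ l ∧ |w.im| ≤ Real.pi} := by
      apply closure_minimal
      · intro w hw
        rw [hU, Complex.mem_reProdIm] at hw
        exact ⟨abs_le.2 ⟨hw.1.1.le, hw.1.2.le⟩, abs_le.2 ⟨hw.2.1.le, hw.2.2.le⟩⟩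
      · exact (isClosed_le (continuous_abs.comp Complex.continuous_re) continuous_const).inter
          (isClosed_le (continuous_abs.comp Complex.continuous_im) continuous_const)
    intro w hw
    obtain ⟨h1, h2⟩ := hcl hw
    rw [mem_ball_zero_iff]
    have h3 := Complex.norm_le_abs_re_add_abs_im w
    have h4 := Real.pi_lt_four
    linarith
  have h1 := Complex.norm_le_of_forall_mem_frontier_norm_le hUb (hFd.mono hUcl).diffContOnCl hfr hmem
  rw [hFn] at h1
  have h2 : (y * Complex.I : ℂ).re = 0 := by simp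
  have h3 : (y * Complex.I : ℂ).im = y := by simp
  rw [h2, h3, zero_div, neg_zero, Real.exp_zero] at h1
  have h4 : 1 / 2 ≤ Real.cos (y / 2) := by
    have h5 := Real.one_sub_sq_div_two_le_cos (x := y / 2)
    have h6 : y ^ 2 ≤ 1 := by
      rw [← sq_abs]
      exact pow_le_one₀ (abs_nonneg _) hy
    nlinarith
  rw [← le_div_iff₀ (Real.exp_pos _), one_div, ← Real.exp_neg] at h1
  refine h1.trans (Real.exp_le_exp.2 ?_)
  nlinarith

open Complex in
/-- **rotation argument** -/
theorem rot {γ : ℂ → ℂ} (hγ : Differentiable ℂ γ) {z0 : ℂ} (hz0 : z0 ≠ 0) {a M S : ℝ} (ha : 0 < a)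
    {m : ℕ} (hm : Real.pi * a ≤ m) (hM0 : 0 ≤ M) (hM : ∀ z, ‖z‖ = ‖z0‖ → ‖γ z‖ ≤ Real.exp M)
    (hS : ∀ y : ℝ, |y| ≤ 1 → ‖γ (z0 * Complex.exp (y * Complex.I / a))‖ ≤ Real.exp (-S)) :
    ‖γ 0‖ ^ m ≤ Real.exp (m * M - S) := by
  have hπ := Real.pi_pos
  have hmp : (0 : ℝ) < m := lt_of_lt_of_le (by positivity) hm
  have hm0 : m ≠ 0 := by
    rintro rfl
    simp at hmp
  have hz0n : 0 < ‖z0‖ := norm_pos_iff.2 hz0
  set ζ : ℂ := Complex.exp (2 * Real.pi * Complex.I / m) with hζ
  have hζn : ‖ζ‖ = 1 := by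
    rw [hζ, Complex.norm_exp]
    have : (2 * Real.pi * Complex.I / m : ℂ).re = 0 := by
      have e : (2 * Real.pi * Complex.I / m : ℂ) = ((2 * Real.pi / m : ℝ) : ℂ) * Complex.I := by
        push_cast
        ring
      rw [e]
      simp
    rw [this, Real.exp_zero]
  have hζm : ζ ^ m = 1 := by
    rw [hζ, ← Complex.exp_nat_mul]
    have : (m : ℂ) * (2 * Real.pi * Complex.I / m) = 2 * Real.pi * Complex.I := by
      have : (m : ℂ) ≠ 0 := by exact_mod_cast hm0
      field_simp
    rw [this, Complex.exp_two_pi_mul_I]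
  set Pr : ℂ → ℂ := fun z => ∏ j ∈ Finset.range m, γ (z * ζ ^ j) with hPr
  have hPrd : Differentiable ℂ Pr := by
    refine Differentiable.fun_finsetProd fun j _ => ?_
    exact hγ.comp (by fun_prop)
  have hcirc : ∀ z, ‖z‖ = ‖z0‖ → ‖Pr z‖ ≤ Real.exp (m * M - S) := by
    intro z hz
    have hzp : z ≠ 0 := by
      rw [← norm_pos_iff, hz]
      exact hz0n
    set θ : ℝ := Complex.arg (z / z0) with hθ
    have hzθ : z = z0 * Complex.exp (θ * Complex.I) := by
      have h1 := Complex.norm_mul_exp_arg_mul_I (z / z0)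
      rw [norm_div, hz, div_self hz0n.ne', ← hθ, Complex.ofReal_one, one_mul] at h1
      rw [h1]
      field_simp
    -- the good rotation
    set J : ℤ := round (-(θ * m / (2 * Real.pi))) with hJ
    have hJb : |-(θ * m / (2 * Real.pi)) - J| ≤ 1 / 2 := abs_sub_round _
    have hm' : (m : ℤ) ≠ 0 := by exact_mod_cast hm0
    set j : ℕ := (J % m).toNat with hj
    have hj0 : 0 ≤ J % m := Int.emod_nonneg _ hm'
    have hjm : J % m < m := Int.emod_lt_of_pos _ (by positivity)
    have hjJ : (j : ℤ) = J % m := Int.toNat_of_nonneg hj0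
    have hjlt : j < m := by
      have : (j : ℤ) < m := by rw [hjJ]; exact hjm
      exact_mod_cast this
    have hζj : ζ ^ j = Complex.exp ((2 * Real.pi * J / m : ℝ) * Complex.I) := by
      have h1 : ζ ^ J = ζ ^ j := by
        have h2 : J = m * (J / m) + j := by
          rw [hjJ]
          exact (Int.mul_ediv_add_emod J m).symm
        have hζ0 : ζ ≠ 0 := Complex.exp_ne_zero _
        have h3 : ζ ^ (m * (J / m) + j : ℤ) = ζ ^ j := by
          rw [zpow_add₀ hζ0, zpow_mul, zpow_natCast, hζm, one_zpow, one_mul, zpow_natCast]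
        rw [← h3, ← h2]
      rw [← h1, hζ, ← Complex.exp_int_mul]
      congr 1
      push_cast
      ring
    set y : ℝ := a * (θ + 2 * Real.pi * J / m) with hy
    have hy1 : |y| ≤ 1 := by
      have h1 : θ + 2 * Real.pi * J / m = -(2 * Real.pi / m) * (-(θ * m / (2 * Real.pi)) - J) := by
        field_simp
        ring
      rw [hy, h1, abs_mul, abs_mul, abs_neg, abs_of_pos ha, abs_of_pos (by positivity)]
      have h2 : 2 * Real.pi / m * |-(θ * m / (2 * Real.pi)) - J| ≤ 2 * Real.pi / m * (1 / 2) :=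
        mul_le_mul_of_nonneg_left hJb (by positivity)
      have h3 : a * (2 * Real.pi / m * (1 / 2)) ≤ 1 := by
        have : a * (2 * Real.pi / m * (1 / 2)) = (Real.pi * a) / m := by ring
        rw [this, div_le_one hmp]
        exact hm
      exact (mul_le_mul_of_nonneg_left h2 ha.le).trans h3
    have hgood : ‖γ (z * ζ ^ j)‖ ≤ Real.exp (-S) := by
      have h1 : z * ζ ^ j = z0 * Complex.exp (y * Complex.I / a) := by
        rw [hζj, hzθ, mul_assoc, ← Complex.exp_add]
        congr 2
        rw [hy]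
        push_cast
        have : (a : ℂ) ≠ 0 := by exact_mod_cast ha.ne'
        field_simp
      rw [h1]
      exact hS y hy1
    have hall : ∀ i, ‖γ (z * ζ ^ i)‖ ≤ Real.exp M := by
      intro i
      apply hM
      rw [norm_mul, norm_pow, hζn, one_pow, mul_one, hz]
    have hjmem : j ∈ Finset.range m := Finset.mem_range.2 hjlt
    show ‖∏ j ∈ Finset.range m, γ (z * ζ ^ j)‖ ≤ _
    rw [norm_prod, ← Finset.mul_prod_erase _ _ hjmem]
    have h1 : ∏ i ∈ (Finset.range m).erase j, ‖γ (z * ζ ^ i)‖ ≤
        ∏ _i ∈ (Finset.range m).erase j, Real.exp M :=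
      Finset.prod_le_prod (fun i _ => norm_nonneg _) fun i _ => hall i
    rw [Finset.prod_const, Finset.card_erase_of_mem hjmem, Finset.card_range,
      ← Real.exp_nat_mul] at h1
    calc ‖γ (z * ζ ^ j)‖ * ∏ i ∈ (Finset.range m).erase j, ‖γ (z * ζ ^ i)‖ ≤
        Real.exp (-S) * Real.exp ((m - 1 : ℕ) * M) :=
          mul_le_mul hgood h1 (Finset.prod_nonneg fun i _ => norm_nonneg _) (Real.exp_pos _).le
      _ ≤ Real.exp (m * M - S) := by
          rw [← Real.exp_add]
          apply Real.exp_le_exp.2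
          have h2 : ((m - 1 : ℕ) : ℝ) ≤ m := by exact_mod_cast Nat.sub_le m 1
          nlinarith
  have h0 := Complex.norm_le_of_forall_mem_frontier_norm_le (isBounded_ball (x := (0 : ℂ))
    (r := ‖z0‖)) hPrd.diffContOnCl (C := Real.exp (m * M - S)) (fun z hz => by
      rw [frontier_ball _ hz0n.ne', mem_sphere_zero_iff_norm] at hz
      exact hcirc z hz) (z := 0) (subset_closure (mem_ball_self hz0n))
  have h1 : Pr 0 = γ 0 ^ m := by
    show ∏ j ∈ Finset.range m, γ (0 * ζ ^ j) = _
    simp
  rw [h1, norm_pow] at h0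
  exact h0

end Pool.Agent.K9h3.TC
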