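import Mathlib

/-!
# Harnack inequalities for holomorphic functions with positive real part, and logarithms
-/

set_option autoImplicit false

open Set Filter Topology Metric

namespace Pool.Agent.K9h3.TC

section

variable {g : ℂ → ℂ} {z0 : ℂ} {ρ : ℝ}

/-- the Cayley quotient attached to a function with positive real part -/
theorem cayley (hg : DifferentiableOn ℂ g (ball z0 ρ)) (hρ : 0 < ρ)
    (hpos : ∀ z ∈ ball z0 ρ, 0 < (g z).re) :
    DifferentiableOn ℂ (fun z => (g z - g z0) / (g z + (starRingEnd ℂ) (g z0))) (ball z0 ρ) ∧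
    MapsTo (fun z => (g z - g z0) / (g z + (starRingEnd ℂ) (g z0))) (ball z0 ρ)
      (closedBall ((g z0 - g z0) / (g z0 + (starRingEnd ℂ) (g z0))) 1) ∧
    ∀ z ∈ ball z0 ρ, g z + (starRingEnd ℂ) (g z0) ≠ 0 := by
  have h0 : 0 < (g z0).re := hpos z0 (mem_ball_self hρ)
  have hne : ∀ z ∈ ball z0 ρ, g z + (starRingEnd ℂ) (g z0) ≠ 0 := by
    intro z hz h
    have h1 := congrArg Complex.re h
    rw [Complex.add_re, Complex.conj_re, Complex.zero_re] at h1
    have := hpos z hz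
    linarith
  refine ⟨?_, ?_, hne⟩
  · exact (hg.sub_const _).div (hg.add_const _) hne
  · intro z hz
    rw [sub_self, zero_div, mem_closedBall_zero_iff, norm_div,
      div_le_one (norm_pos_iff.2 (hne z hz))]
    have e1 : ‖g z - g z0‖ ^ 2 ≤ ‖g z + (starRingEnd ℂ) (g z0)‖ ^ 2 := by
      rw [← Complex.normSq_eq_norm_sq, ← Complex.normSq_eq_norm_sq, Complex.normSq_apply,
        Complex.normSq_apply, Complex.sub_re, Complex.sub_im, Complex.add_re, Complex.add_im,
        Complex.conj_re, Complex.conj_im]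
      have := hpos z hz
      nlinarith [mul_pos this h0]
    exact le_of_sq_le_sq e1 (norm_nonneg _)

/-- Harnack inequality -/
theorem harnack (hg : DifferentiableOn ℂ g (ball z0 ρ)) (hρ : 0 < ρ)
    (hpos : ∀ z ∈ ball z0 ρ, 0 < (g z).re) {z1 : ℂ} (hz1 : z1 ∈ ball z0 ρ) :
    |(g z0).re - (g z1).re| ≤ (dist z1 z0 / ρ) * ((g z0).re + (g z1).re) := by
  obtain ⟨hd, hm, hne⟩ := cayley hg hρ hpos
  have h0 : 0 < (g z0).re := hpos z0 (mem_ball_self hρ)
  have h1 : 0 < (g z1).re := hpos z1 hz1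
  have h2 := Complex.dist_le_div_mul_dist_of_mapsTo_ball hd hm hz1
  rw [sub_self, zero_div, dist_zero_right, norm_div,
    div_le_iff₀ (norm_pos_iff.2 (hne z1 hz1))] at h2
  set k : ℝ := dist z1 z0 / ρ with hk
  have hk0 : 0 ≤ k := by positivity
  have hk1 : k < 1 := by
    rw [hk, div_lt_one hρ]
    exact hz1
  have h3 : ‖g z1 - g z0‖ ≤ k * ‖g z1 + (starRingEnd ℂ) (g z0)‖ := by
    have : 1 / ρ * dist z1 z0 = k := by rw [hk]; ring
    rwa [this] at h2
  have h4 : ‖g z1 - g z0‖ ^ 2 = ‖g z1 + (starRingEnd ℂ) (g z0)‖ ^ 2 - 4 * (g z0).re * (g z1).re := by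
    rw [← Complex.normSq_eq_norm_sq, ← Complex.normSq_eq_norm_sq, Complex.normSq_apply,
      Complex.normSq_apply, Complex.sub_re, Complex.sub_im, Complex.add_re, Complex.add_im,
      Complex.conj_re, Complex.conj_im]
    ring
  have h5 : ((g z0).re + (g z1).re) ^ 2 ≤ ‖g z1 + (starRingEnd ℂ) (g z0)‖ ^ 2 := by
    rw [← Complex.normSq_eq_norm_sq, Complex.normSq_apply, Complex.add_re, Complex.conj_re]
    nlinarith [mul_self_nonneg ((g z1 + (starRingEnd ℂ) (g z0)).im)]
  have h6 : ‖g z1 - g z0‖ ^ 2 ≤ k ^ 2 * ‖g z1 + (starRingEnd ℂ) (g z0)‖ ^ 2 := by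
    rw [← mul_pow]
    exact pow_le_pow_left₀ (norm_nonneg _) h3 2
  have h7 : ((g z0).re - (g z1).re) ^ 2 ≤ (k * ((g z0).re + (g z1).re)) ^ 2 := by
    have : 0 ≤ 1 - k ^ 2 := by nlinarith
    nlinarith [mul_le_mul_of_nonneg_left h5 this]
  have h8 : 0 ≤ k * ((g z0).re + (g z1).re) := by positivity
  exact abs_le_of_sq_le_sq h7 h8

/-- Harnack inequality in quotient form -/
theorem harnack' (hg : DifferentiableOn ℂ g (ball z0 ρ)) (hρ : 0 < ρ)
    (hpos : ∀ z ∈ ball z0 ρ, 0 < (g z).re) {z1 : ℂ} (hz1 : z1 ∈ ball z0 ρ) :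
    (ρ - dist z1 z0) * (g z0).re ≤ 2 * ρ * (g z1).re := by
  have h1 := harnack hg hρ hpos hz1
  have h2 := (abs_le.1 h1).2
  have h3 : 0 < (g z1).re := hpos z1 hz1
  have h5 : dist z1 z0 < ρ := hz1
  have h6 : (dist z1 z0 / ρ) * ((g z0).re + (g z1).re) * ρ =
      dist z1 z0 * ((g z0).re + (g z1).re) := by
    field_simp
  have h7 := mul_le_mul_of_nonneg_right h2 hρ.le
  rw [h6] at h7
  nlinarith [mul_nonneg (sub_nonneg.2 h5.le) h3.le]

/-- gradient bound -/
theorem harnack_deriv (hg : DifferentiableOn ℂ g (ball z0 ρ)) (hρ : 0 < ρ)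
    (hpos : ∀ z ∈ ball z0 ρ, 0 < (g z).re) : ‖deriv g z0‖ ≤ 2 * (g z0).re / ρ := by
  obtain ⟨hd, hm, hne⟩ := cayley hg hρ hpos
  have h0 : 0 < (g z0).re := hpos z0 (mem_ball_self hρ)
  have h1 := Complex.norm_deriv_le_div_of_mapsTo_ball hd hm hρ
  have hgd : HasDerivAt g (deriv g z0) z0 :=
    (hg.differentiableAt (ball_mem_nhds _ hρ)).hasDerivAt
  have h2 : HasDerivAt (fun z => (g z - g z0) / (g z + (starRingEnd ℂ) (g z0)))
      (deriv g z0 / (g z0 + (starRingEnd ℂ) (g z0))) z0 := by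
    have := (hgd.sub_const (g z0)).div (hgd.add_const ((starRingEnd ℂ) (g z0)))
      (hne z0 (mem_ball_self hρ))
    have hz := hne z0 (mem_ball_self hρ)
    rw [sub_self, zero_mul, sub_zero, sq, mul_div_mul_right _ _ hz] at this
    exact this
  rw [h2.deriv, norm_div, div_le_iff₀ (norm_pos_iff.2 (hne z0 (mem_ball_self hρ)))] at h1
  have h3 : g z0 + (starRingEnd ℂ) (g z0) = ((2 * (g z0).re : ℝ) : ℂ) := by
    rw [Complex.add_conj]
  rw [h3, Complex.norm_real, Real.norm_of_nonneg (by positivity)] at h1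
  calc ‖deriv g z0‖ ≤ 1 / ρ * (2 * (g z0).re) := h1
    _ = 2 * (g z0).re / ρ := by ring

end

/-- a zero-free holomorphic function on a disc has a logarithm -/
theorem exists_log_ball {u : ℂ → ℂ} {z0 : ℂ} {ρ : ℝ} (hu : DifferentiableOn ℂ u (ball z0 ρ))
    (h0 : ∀ z ∈ ball z0 ρ, u z ≠ 0) (hρ : 0 < ρ) :
    ∃ g : ℂ → ℂ, DifferentiableOn ℂ g (ball z0 ρ) ∧
      ∀ z ∈ ball z0 ρ, Complex.exp (g z) = u z ∧ deriv g z = deriv u z / u z := by
  have hd : DifferentiableOn ℂ (fun z => deriv u z / u z) (ball z0 ρ) :=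
    (hu.deriv isOpen_ball).div hu h0
  obtain ⟨F, hF⟩ := hd.isExactOn_ball
  have hFd : DifferentiableOn ℂ F (ball z0 ρ) := fun z hz =>
    (hF z hz).differentiableAt.differentiableWithinAt
  have hc : ∀ z ∈ ball z0 ρ, u z * Complex.exp (- F z) = u z0 * Complex.exp (- F z0) := by
    intro z hz
    refine isOpen_ball.is_const_of_deriv_eq_zero (convex_ball z0 ρ).isPreconnected
      (f := fun z => u z * Complex.exp (- F z)) (hu.mul hFd.neg.cexp) ?_ hz (mem_ball_self hρ)
    intro w hw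
    have h1 : HasDerivAt u (deriv u w) w := (hu.differentiableAt (isOpen_ball.mem_nhds hw)).hasDerivAt
    have h2 : HasDerivAt (fun z => Complex.exp (- F z)) (Complex.exp (- F w) * -(deriv u w / u w)) w :=
      (hF w hw).neg.cexp
    have h3 := (h1.mul h2).deriv
    rw [Pi.zero_apply]
    refine Eq.trans h3 ?_
    have := h0 w hw
    field_simp
    ring
  have hne : u z0 * Complex.exp (- F z0) ≠ 0 :=
    mul_ne_zero (h0 z0 (mem_ball_self hρ)) (Complex.exp_ne_zero _)
  refine ⟨fun z => F z + Complex.log (u z0 * Complex.exp (- F z0)), hFd.add_const _, ?_⟩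
  intro z hz
  constructor
  · rw [Complex.exp_add, Complex.exp_log hne, ← hc z hz, Complex.exp_neg]
    field_simp
  · exact ((hF z hz).add_const _).deriv

/-- a zero-free entire function has a logarithm -/
theorem exists_log_univ {u : ℂ → ℂ} (hu : Differentiable ℂ u) (h0 : ∀ z, u z ≠ 0) :
    ∃ g : ℂ → ℂ, Differentiable ℂ g ∧ ∀ z, Complex.exp (g z) = u z := by
  have hd : Differentiable ℂ (fun z => deriv u z / u z) := fun z =>
    (hu.deriv z).div (hu z) (h0 z)
  obtain ⟨F, hF⟩ := hd.isExactOn_univ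
  have hFd : Differentiable ℂ F := fun z => (hF z (mem_univ z)).differentiableAt
  have hc : ∀ z, u z * Complex.exp (- F z) = u 0 * Complex.exp (- F 0) := by
    intro z
    refine is_const_of_deriv_eq_zero
      (f := fun z => u z * Complex.exp (- F z)) (hu.mul hFd.neg.cexp) ?_ z 0
    intro w
    have h1 : HasDerivAt u (deriv u w) w := (hu w).hasDerivAt
    have h2 : HasDerivAt (fun z => Complex.exp (- F z)) (Complex.exp (- F w) * -(deriv u w / u w)) w :=
      (hF w (mem_univ w)).neg.cexp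
    have h3 := (h1.mul h2).deriv
    refine Eq.trans h3 ?_
    have := h0 w
    field_simp
    ring
  have hne : u 0 * Complex.exp (- F 0) ≠ 0 := mul_ne_zero (h0 0) (Complex.exp_ne_zero _)
  refine ⟨fun z => F z + Complex.log (u 0 * Complex.exp (- F 0)), hFd.add_const _, ?_⟩
  intro z
  rw [Complex.exp_add, Complex.exp_log hne, ← hc z, Complex.exp_neg]
  field_simp

/-- Harnack for zero-free functions bounded below: comparison of two values -/
theorem zf_harnack {u : ℂ → ℂ} {z0 z1 : ℂ} {ρ c : ℝ} (hu : DifferentiableOn ℂ u (ball z0 ρ))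
    (hc : 0 < c) (hlow : ∀ z ∈ ball z0 ρ, c < ‖u z‖) (hz1 : z1 ∈ ball z0 ρ) :
    (ρ - dist z1 z0) * Real.log (‖u z0‖ / c) ≤ 2 * ρ * Real.log (‖u z1‖ / c) := by
  have hρ : 0 < ρ := lt_of_le_of_lt dist_nonneg hz1
  have h0 : ∀ z ∈ ball z0 ρ, u z ≠ 0 := fun z hz h => by
    have := hlow z hz
    rw [h, norm_zero] at this
    linarith
  obtain ⟨g, hgd, hg⟩ := exists_log_ball hu h0 hρ
  have hre : ∀ z ∈ ball z0 ρ, (g z - (Real.log c : ℝ)).re = Real.log (‖u z‖ / c) := by
    intro z hz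
    rw [← (hg z hz).1, Complex.norm_exp, Real.log_div (Real.exp_pos _).ne' hc.ne', Real.log_exp,
      Complex.sub_re, Complex.ofReal_re]
  have hpos : ∀ z ∈ ball z0 ρ, 0 < (g z - (Real.log c : ℝ)).re := by
    intro z hz
    rw [hre z hz]
    apply Real.log_pos
    rw [lt_div_iff₀ hc, one_mul]
    exact hlow z hz
  have h1 := harnack' (hgd.sub_const _) hρ hpos hz1
  rw [hre z0 (mem_ball_self hρ), hre z1 hz1] at h1
  exact h1

/-- gradient bound for zero-free functions bounded below -/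
theorem zf_deriv {u : ℂ → ℂ} {z0 : ℂ} {ρ c : ℝ} (hu : DifferentiableOn ℂ u (ball z0 ρ))
    (hc : 0 < c) (hlow : ∀ z ∈ ball z0 ρ, c < ‖u z‖) (hρ : 0 < ρ) :
    ‖deriv u z0‖ ≤ 2 * Real.log (‖u z0‖ / c) / ρ * ‖u z0‖ := by
  have h0 : ∀ z ∈ ball z0 ρ, u z ≠ 0 := fun z hz h => by
    have := hlow z hz
    rw [h, norm_zero] at this
    linarith
  obtain ⟨g, hgd, hg⟩ := exists_log_ball hu h0 hρ
  have hre : ∀ z ∈ ball z0 ρ, (g z - (Real.log c : ℝ)).re = Real.log (‖u z‖ / c) := by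
    intro z hz
    rw [← (hg z hz).1, Complex.norm_exp, Real.log_div (Real.exp_pos _).ne' hc.ne', Real.log_exp,
      Complex.sub_re, Complex.ofReal_re]
  have hpos : ∀ z ∈ ball z0 ρ, 0 < (g z - (Real.log c : ℝ)).re := by
    intro z hz
    rw [hre z hz]
    apply Real.log_pos
    rw [lt_div_iff₀ hc, one_mul]
    exact hlow z hz
  have h1 := harnack_deriv (hgd.sub_const _) hρ hpos
  rw [hre z0 (mem_ball_self hρ)] at h1
  have hz0 := mem_ball_self hρ (x := z0)
  have h2 : deriv (fun z => g z - (Real.log c : ℝ)) z0 = deriv u z0 / u z0 := by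
    have := ((hgd.differentiableAt (ball_mem_nhds _ hρ)).hasDerivAt.sub_const
      ((Real.log c : ℝ) : ℂ)).deriv
    rw [this]
    exact (hg z0 hz0).2
  rw [h2, norm_div, div_le_iff₀ (norm_pos_iff.2 (h0 z0 hz0))] at h1
  exact h1

end Pool.Agent.K9h3.TC
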