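import Mathlib

/-!
# A uniqueness theorem in the half-plane

A holomorphic function in the upper half-plane bounded by `C exp (- c max (Re z) 0)` vanishes.
-/

set_option autoImplicit false

open Set Filter Topology Metric

namespace Pool.Agent.K9h3.TC

/-- real part of the auxiliary exponent -/
theorem re_aux (ζ w : ℂ) (l : ℝ) :
    ((Complex.I / Real.pi) * ζ * (Complex.log ζ - (l : ℂ)) + w).re =
      w.re - (ζ.re * ζ.arg + ζ.im * (Real.log ‖ζ‖ - l)) / Real.pi := by
  have h1 : (Complex.I / (Real.pi : ℂ)) * ζ * (Complex.log ζ - (l : ℂ)) =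
      (Complex.I * (ζ * (Complex.log ζ - (l : ℂ)))) / (Real.pi : ℂ) := by ring
  rw [h1, Complex.add_re, Complex.div_ofReal_re, Complex.I_mul_re, Complex.mul_im, Complex.sub_re,
    Complex.sub_im, Complex.log_re, Complex.log_im, Complex.ofReal_re, Complex.ofReal_im]
  ring

theorem li {φ : ℂ → ℂ} (hφ : DifferentiableOn ℂ φ {z | 0 < z.im}) {C c : ℝ} (hc : 0 < c)
    (hb : ∀ z : ℂ, 0 < z.im → ‖φ z‖ ≤ C * Real.exp (-(c * max z.re 0))) :
    ∀ z : ℂ, 0 < z.im → φ z = 0 := by
  intro z0 hz0
  have hπ := Real.pi_pos
  have hopen : IsOpen {z : ℂ | 0 < z.im} := isOpen_lt continuous_const Complex.continuous_im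
  have hC : 0 ≤ C := by
    have h1 := (norm_nonneg _).trans (hb z0 hz0)
    exact nonneg_of_mul_nonneg_left h1 (Real.exp_pos _)
  set η : ℝ := z0.im / 2 with hη
  have hηp : 0 < η := by positivity
  set w0 : ℂ := z0 - η * Complex.I with hw0
  have hw0im : w0.im = η := by
    have h1 : w0.im = z0.im - η := by rw [hw0]; simp
    rw [h1, hη]
    ring
  -- the main estimate
  have key : ∀ L : ℝ, 1 ≤ L → ‖w0‖ < L → ‖φ z0‖ ≤
      C * Real.exp (c * (|w0.re| + (η + 1) / Real.pi * Real.log ‖w0 + Complex.I‖
        - η / Real.pi * Real.log L)) := by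
    intro L hL1 hL
    have hLp : 0 < L := by linarith
    set G : ℂ → ℂ := fun w => (Complex.I / Real.pi) * (w + Complex.I) *
      (Complex.log (w + Complex.I) - ((Real.log L : ℝ) : ℂ)) + w with hG
    set f : ℂ → ℂ := fun w => φ (w + η * Complex.I) * Complex.exp (c * G w) with hf
    set U : Set ℂ := ball 0 L ∩ {w | 0 < w.im} with hU
    have hcl : closure U ⊆ closedBall 0 L ∩ {w | 0 ≤ w.im} := by
      refine closure_minimal ?_ ?_
      · refine inter_subset_inter ball_subset_closedBall fun w hw => ?_
        have hw' : 0 < w.im := hw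
        exact hw'.le
      · exact isClosed_closedBall.inter (isClosed_le continuous_const Complex.continuous_im)
    have hUo : IsOpen U := isOpen_ball.inter hopen
    have hGre : ∀ w : ℂ, (G w).re = w.re - (w.re * (w + Complex.I).arg +
        (w.im + 1) * (Real.log ‖w + Complex.I‖ - Real.log L)) / Real.pi := by
      intro w
      rw [hG]
      simp only
      rw [re_aux]
      simp
    have hfn : ∀ w : ℂ, 0 ≤ w.im → ‖f w‖ ≤ C * Real.exp (c * ((G w).re - max w.re 0)) := by
      intro w hw
      rw [hf]
      simp only
      rw [norm_mul, Complex.norm_exp, Complex.re_ofReal_mul]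
      have him : (w + (η : ℂ) * Complex.I).im = w.im + η := by simp
      have hre : (w + (η : ℂ) * Complex.I).re = w.re := by simp
      have h1 := hb (w + η * Complex.I) (by rw [him]; linarith)
      rw [hre] at h1
      calc ‖φ (w + η * Complex.I)‖ * Real.exp (c * (G w).re) ≤
          (C * Real.exp (-(c * max w.re 0))) * Real.exp (c * (G w).re) :=
            mul_le_mul_of_nonneg_right h1 (Real.exp_pos _).le
        _ = C * Real.exp (c * ((G w).re - max w.re 0)) := by
            rw [mul_assoc, ← Real.exp_add]
            congr 2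
            ring
    have hd : DiffContOnCl ℂ f U := by
      apply DifferentiableOn.diffContOnCl
      intro w hw
      have hw2 := hcl hw
      have hwim : 0 ≤ w.im := hw2.2
      apply DifferentiableAt.differentiableWithinAt
      have him : 0 < (w + (η : ℂ) * Complex.I).im := by
        have : (w + (η : ℂ) * Complex.I).im = w.im + η := by simp
        rw [this]
        linarith
      have h1 : DifferentiableAt ℂ φ (w + η * Complex.I) :=
        (hφ _ him).differentiableAt (hopen.mem_nhds him)
      have h2 : DifferentiableAt ℂ (fun w : ℂ => φ (w + η * Complex.I)) w :=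
        h1.comp w (by fun_prop)
      have hs : w + Complex.I ∈ Complex.slitPlane := by
        right
        have : (w + Complex.I).im = w.im + 1 := by simp
        rw [this]
        linarith
      have h3 : DifferentiableAt ℂ G w := by
        have h4 : DifferentiableAt ℂ (fun w : ℂ => Complex.log (w + Complex.I)) w :=
          DifferentiableAt.clog (by fun_prop) hs
        rw [hG]
        fun_prop
      exact h2.mul (h3.const_mul _).cexp
    have hfr : ∀ w ∈ frontier U, ‖f w‖ ≤ C * Real.exp (c * (Real.log L / Real.pi)) := by
      intro w hw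
      have hwc : w ∈ closure U := frontier_subset_closure hw
      have hwn : w ∉ U := by
        rw [hUo.frontier_eq] at hw
        exact hw.2
      have hw2 := hcl hwc
      have hwim : 0 ≤ w.im := hw2.2
      have hwL : ‖w‖ ≤ L := by
        have := hw2.1
        rwa [mem_closedBall_zero_iff] at this
      refine (hfn w hwim).trans ?_
      have hlogL : 0 ≤ Real.log L := Real.log_nonneg hL1
      have hnorm : ‖w + Complex.I‖ ^ 2 = ‖w‖ ^ 2 + 2 * w.im + 1 := by
        rw [← Complex.normSq_eq_norm_sq, ← Complex.normSq_eq_norm_sq, Complex.normSq_apply,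
          Complex.normSq_apply]
        simp
        ring
      have harg0 : 0 ≤ (w + Complex.I).arg := by
        rw [Complex.arg_nonneg_iff]
        have : (w + Complex.I).im = w.im + 1 := by simp
        rw [this]
        linarith
      have hargπ : (w + Complex.I).arg ≤ Real.pi := Complex.arg_le_pi _
      have hA : w.re - w.re * (w + Complex.I).arg / Real.pi ≤ max w.re 0 := by
        have h1 : 0 ≤ 1 - (w + Complex.I).arg / Real.pi := by
          rw [sub_nonneg, div_le_one hπ]
          exact hargπ
        have h2 : 1 - (w + Complex.I).arg / Real.pi ≤ 1 := by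
          have : 0 ≤ (w + Complex.I).arg / Real.pi := by positivity
          linarith
        have h3 : w.re - w.re * (w + Complex.I).arg / Real.pi =
            w.re * (1 - (w + Complex.I).arg / Real.pi) := by ring
        rw [h3]
        rcases le_total w.re 0 with h4 | h4
        · exact (mul_nonpos_of_nonpos_of_nonneg h4 h1).trans (le_max_right _ _)
        · exact (mul_le_of_le_one_right h4 h2).trans (le_max_left _ _)
      have hB : -((w.im + 1) * (Real.log ‖w + Complex.I‖ - Real.log L)) ≤ Real.log L := by
        by_cases h0 : 0 < w.im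
        · have hwL2 : ‖w‖ = L := by
            by_contra hne
            exact hwn ⟨by rw [mem_ball_zero_iff]; exact lt_of_le_of_ne hwL hne, h0⟩
          have h1 : L ≤ ‖w + Complex.I‖ := by
            rw [← hwL2]
            apply le_of_sq_le_sq _ (norm_nonneg _)
            rw [hnorm]
            linarith
          have h2 := Real.log_le_log hLp h1
          nlinarith
        · have h00 : w.im = 0 := le_antisymm (not_lt.1 h0) hwim
          have h1 : 1 ≤ ‖w + Complex.I‖ := by
            apply le_of_sq_le_sq _ (norm_nonneg _)
            rw [hnorm, h00]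
            nlinarith [sq_nonneg ‖w‖]
          have h2 := Real.log_nonneg h1
          rw [h00]
          linarith
      have hfin : (G w).re - max w.re 0 ≤ Real.log L / Real.pi := by
        rw [hGre, add_div]
        have h5 : -((w.im + 1) * (Real.log ‖w + Complex.I‖ - Real.log L) / Real.pi) ≤
            Real.log L / Real.pi := by
          rw [← neg_div]
          gcongr
        linarith
      gcongr
    have hwU : w0 ∈ closure U := subset_closure ⟨by rw [mem_ball_zero_iff]; exact hL, by
      show 0 < w0.im
      rw [hw0im]; exact hηp⟩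
    have hmain := Complex.norm_le_of_forall_mem_frontier_norm_le
      (Metric.isBounded_ball.subset inter_subset_left) hd hfr hwU
    have hz0w : w0 + η * Complex.I = z0 := by rw [hw0]; ring
    rw [hf] at hmain
    simp only at hmain
    rw [norm_mul, hz0w, Complex.norm_exp, Complex.re_ofReal_mul, hGre, hw0im] at hmain
    have hlow : -(|w0.re| + (η + 1) / Real.pi * Real.log ‖w0 + Complex.I‖ -
        (η + 1) / Real.pi * Real.log L) ≤
        w0.re - (w0.re * (w0 + Complex.I).arg + (η + 1) * (Real.log ‖w0 + Complex.I‖ - Real.log L)) /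
          Real.pi := by
      have harg0 : 0 ≤ (w0 + Complex.I).arg := by
        rw [Complex.arg_nonneg_iff]
        have : (w0 + Complex.I).im = w0.im + 1 := by simp
        rw [this, hw0im]
        linarith
      have hargπ : (w0 + Complex.I).arg ≤ Real.pi := Complex.arg_le_pi _
      have h1 : 0 ≤ 1 - (w0 + Complex.I).arg / Real.pi := by
        rw [sub_nonneg, div_le_one hπ]
        exact hargπ
      have h2 : 1 - (w0 + Complex.I).arg / Real.pi ≤ 1 := by
        have : 0 ≤ (w0 + Complex.I).arg / Real.pi := by positivity
        linarith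
      have h3 : -|w0.re| ≤ w0.re * (1 - (w0 + Complex.I).arg / Real.pi) := by
        have h4 := neg_abs_le w0.re
        have h5 := abs_nonneg w0.re
        rcases le_total w0.re 0 with h6 | h6
        · nlinarith
        · exact (neg_nonpos.2 h5).trans (mul_nonneg h6 h1)
      have h7 : w0.re - (w0.re * (w0 + Complex.I).arg + (η + 1) *
          (Real.log ‖w0 + Complex.I‖ - Real.log L)) / Real.pi =
          w0.re * (1 - (w0 + Complex.I).arg / Real.pi) -
          ((η + 1) / Real.pi * Real.log ‖w0 + Complex.I‖ - (η + 1) / Real.pi * Real.log L) := by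
        ring
      rw [h7]
      linarith
    have h8 : ‖φ z0‖ * Real.exp (c * -(|w0.re| + (η + 1) / Real.pi * Real.log ‖w0 + Complex.I‖ -
        (η + 1) / Real.pi * Real.log L)) ≤ C * Real.exp (c * (Real.log L / Real.pi)) := by
      refine le_trans ?_ hmain
      gcongr
    have h9 : ‖φ z0‖ = (‖φ z0‖ * Real.exp (c * -(|w0.re| +
        (η + 1) / Real.pi * Real.log ‖w0 + Complex.I‖ - (η + 1) / Real.pi * Real.log L))) *
        Real.exp (c * (|w0.re| + (η + 1) / Real.pi * Real.log ‖w0 + Complex.I‖ -
        (η + 1) / Real.pi * Real.log L)) := by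
      rw [mul_assoc, ← Real.exp_add]
      rw [show c * -(|w0.re| + (η + 1) / Real.pi * Real.log ‖w0 + Complex.I‖ -
        (η + 1) / Real.pi * Real.log L) + c * (|w0.re| + (η + 1) / Real.pi *
        Real.log ‖w0 + Complex.I‖ - (η + 1) / Real.pi * Real.log L) = 0 by ring]
      rw [Real.exp_zero, mul_one]
    rw [h9]
    refine (mul_le_mul_of_nonneg_right h8 (Real.exp_pos _).le).trans ?_
    rw [mul_assoc, ← Real.exp_add]
    refine le_of_eq ?_
    congr 2
    ring
  -- let the radius tend to infinity
  have hlim : Tendsto (fun L : ℝ => C * Real.exp (c * (|w0.re| + (η + 1) / Real.pi *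
      Real.log ‖w0 + Complex.I‖ - η / Real.pi * Real.log L))) atTop (𝓝 (C * 0)) := by
    apply Tendsto.const_mul
    apply Real.tendsto_exp_atBot.comp
    apply Tendsto.const_mul_atBot hc
    have h1 : Tendsto (fun L : ℝ => η / Real.pi * Real.log L) atTop atTop :=
      Tendsto.const_mul_atTop (by positivity) Real.tendsto_log_atTop
    exact tendsto_atBot_add_const_left _ _ (tendsto_neg_atTop_atBot.comp h1)
  rw [mul_zero] at hlim
  have h10 : ‖φ z0‖ ≤ 0 := by
    refine ge_of_tendsto hlim ?_
    filter_upwards [eventually_ge_atTop 1, eventually_gt_atTop ‖w0‖] with L h1 h2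
    exact key L h1 h2
  exact norm_le_zero_iff.1 h10

end Pool.Agent.K9h3.TC
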