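import Pool.Agent.K9h3.TC.Wv

/-!
# Periodic functions on a half-plane: touching lemma, lines without zeros, rotation argument
-/

set_option autoImplicit false

open Set Filter Topology Metric

namespace Pool.Agent.K9h3.TC

theorem per_int {α : Type*} {F : ℂ → α}
    (h : ∀ s : ℂ, 0 < s.re → F (s + 2 * Real.pi * Complex.I) = F s) (n : ℤ) :
    ∀ s : ℂ, 0 < s.re → F (s + n * (2 * Real.pi * Complex.I)) = F s := by
  have hre : ∀ (s : ℂ) (n : ℤ), (s + n * (2 * Real.pi * Complex.I)).re = s.re := by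
    intro s n
    simp
  induction n using Int.induction_on with
  | zero =>
    intro s _
    simp
  | succ i ih =>
    intro s hs
    have h1 := h (s + (i : ℤ) * (2 * Real.pi * Complex.I)) (by rw [hre]; exact hs)
    rw [ih s hs] at h1
    rw [← h1]
    congr 1
    push_cast
    ring
  | pred i ih =>
    intro s hs
    have h1 := h (s + (-(i : ℤ) - 1 : ℤ) * (2 * Real.pi * Complex.I)) (by rw [hre]; exact hs)
    rw [← h1, ← ih s hs]
    congr 1
    push_cast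
    ring

/-- reduction to the fundamental strip -/
theorem exists_shift (s : ℂ) : ∃ n : ℤ, 0 ≤ (s + n * (2 * Real.pi * Complex.I)).im ∧
    (s + n * (2 * Real.pi * Complex.I)).im ≤ 2 * Real.pi ∧
    (s + n * (2 * Real.pi * Complex.I)).re = s.re := by
  have hπ := Real.pi_pos
  have him : ∀ n : ℤ, (s + n * (2 * Real.pi * Complex.I)).im = s.im + n * (2 * Real.pi) := by
    intro n
    simp
  have hre : ∀ n : ℤ, (s + n * (2 * Real.pi * Complex.I)).re = s.re := by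
    intro n
    simp
  refine ⟨-⌊s.im / (2 * Real.pi)⌋, ?_, ?_, hre _⟩
  · rw [him]
    have h1 := Int.floor_le (s.im / (2 * Real.pi))
    rw [le_div_iff₀ (by positivity)] at h1
    push_cast
    linarith
  · rw [him]
    have h1 := Int.lt_floor_add_one (s.im / (2 * Real.pi))
    rw [div_lt_iff₀ (by positivity)] at h1
    push_cast
    linarith

theorem isCompact_box (x y : ℝ) :
    IsCompact {s : ℂ | x ≤ s.re ∧ s.re ≤ y ∧ 0 ≤ s.im ∧ s.im ≤ 2 * Real.pi} := by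
  have h1 : {s : ℂ | x ≤ s.re ∧ s.re ≤ y ∧ 0 ≤ s.im ∧ s.im ≤ 2 * Real.pi} =
      Icc x y ×ℂ Icc 0 (2 * Real.pi) := by
    ext s
    rw [Complex.mem_reProdIm]
    simp only [mem_ofPred_eq, mem_Icc]
    tauto
  rw [h1]
  exact (isCompact_Icc).reProdIm isCompact_Icc

/-- **touching lemma on a half-plane** -/
theorem touchP {Θ : ℂ → ℝ} (hc : ContinuousOn Θ {s : ℂ | 1 ≤ s.re})
    (hper : ∀ s : ℂ, 1 ≤ s.re → ∀ n : ℤ, Θ (s + n * (2 * Real.pi * Complex.I)) = Θ s)
    (h1 : ∀ s : ℂ, 1 ≤ s.re → 1 ≤ Θ s) {c r0 : ℝ} (hc0 : 0 < c)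
    (hgr : ∀ σ, r0 ≤ σ → ∃ s : ℂ, s.re = σ ∧ c * Real.exp σ ≤ Θ s) {C1 ε Sb Sm : ℝ}
    (hC1 : 0 < C1) (hε : 0 < ε) (hSb : 0 ≤ Sb) (hSm : 1 ≤ Sm) :
    ∃ (s0 : ℂ) (a : ℝ), 17 * C1 + Sm ≤ s0.re ∧ 0 ≤ s0.im ∧ s0.im ≤ 2 * Real.pi ∧ 1 / 8 ≤ a ∧
      Sb * (1 + s0.re) * Real.exp (C1 * (1 + Real.log (2 + a))) ≤ Θ s0 ∧
      (∀ s : ℂ, s.re = s0.re → Θ s ≤ Θ s0) ∧
      ∀ w : ℂ, ‖w‖ ≤ C1 * (1 + Real.log (2 + a)) → ‖w‖ / a ≤ 17 * C1 ∧
        Θ (s0 + w / a) ≤ Θ s0 * Real.exp (w.re + ε) := by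
  have hπ := Real.pi_pos
  obtain ⟨Bs, hBs3, hBs⟩ := log_asymp hC1 (η := min (ε / 2) (1 / 4)) (by positivity)
  obtain ⟨Be, hBe3, hBe⟩ : ∃ Be : ℝ, 3 ≤ Be ∧ ∀ B, Be ≤ B →
      Sb * (1 + 8 * B) ≤ Real.exp (B / 2) := by
    have h2 : ∀ B : ℝ, 0 ≤ B → B ^ 2 / 8 ≤ Real.exp (B / 2) := by
      intro B hB
      have h3 := Real.add_one_le_exp (B / 4)
      have h4 : Real.exp (B / 2) = Real.exp (B / 4) * Real.exp (B / 4) := by
        rw [← Real.exp_add]
        congr 1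
        ring
      have h5 := Real.quadratic_le_exp_of_nonneg (x := B / 2) (by linarith)
      nlinarith
    refine ⟨3 + 80 * Sb, by linarith, fun B hB => ?_⟩
    refine le_trans ?_ (h2 B (by linarith))
    have h3 : Sb * (1 + 8 * B) ≤ Sb * (10 * B) := mul_le_mul_of_nonneg_left (by linarith) hSb
    have h4 : 80 * Sb * B ≤ B * B := mul_le_mul_of_nonneg_right (by linarith) (by linarith)
    rw [sq]
    linarith
  obtain ⟨M0, hM0⟩ := (isCompact_box 1 (17 * C1 + Sm)).exists_bound_of_continuousOn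
    (hc.mono fun s hs => hs.1)
  set X : ℝ := 8 * (Bs + Be + |M0|) + 2 * |r0| + 4 * |Real.log c| + 100 with hX
  have hX100 : 100 ≤ X := by
    have := abs_nonneg M0
    have := abs_nonneg r0
    have := abs_nonneg (Real.log c)
    linarith
  have hXB : Bs + Be + |M0| ≤ X / 8 := by
    have := abs_nonneg r0
    have := abs_nonneg (Real.log c)
    linarith
  have hXr : 2 * |r0| ≤ X := by
    have := abs_nonneg M0
    have := abs_nonneg (Real.log c)
    linarith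
  have hXc : 4 * |Real.log c| ≤ X := by
    have := abs_nonneg M0
    have := abs_nonneg r0
    linarith
  have hpos : ∀ s : ℂ, 1 ≤ s.re → 0 < Θ s := fun s hs => by linarith [h1 s hs]
  set K : Set ℂ := {s : ℂ | 1 ≤ s.re ∧ s.re ≤ X ∧ 0 ≤ s.im ∧ s.im ≤ 2 * Real.pi} with hK
  have hKc : IsCompact K := isCompact_box 1 X
  have hK1 : (1 : ℂ) ∈ K := ⟨by simp, by simp; linarith, by simp, by simp; positivity⟩
  have hφc : ContinuousOn (fun s : ℂ => Real.log (Θ s) * (X - s.re)) K := by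
    refine ContinuousOn.mul ?_ (continuousOn_const.sub Complex.continuous_re.continuousOn)
    exact (hc.mono fun s hs => hs.1).log fun s hs => (hpos s hs.1).ne'
  obtain ⟨s0, hs0K, hmax⟩ := hKc.exists_isMaxOn ⟨1, hK1⟩ hφc
  obtain ⟨hs1, hsX, hsi, hsi2⟩ := hs0K
  set B0 : ℝ := Real.log (Θ s0) with hB0
  have hΘ0 : Θ s0 = Real.exp B0 := (Real.exp_log (hpos s0 hs1)).symm
  set δ : ℝ := X - s0.re with hδ
  have hδX : δ ≤ X := by linarith
  have hB00 : 0 ≤ B0 := Real.log_nonneg (h1 s0 hs1)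
  have hmax' : ∀ s : ℂ, 1 ≤ s.re → s.re ≤ X → Real.log (Θ s) * (X - s.re) ≤ B0 * δ := by
    intro s hs hs2
    obtain ⟨n, hn1, hn2, hn3⟩ := exists_shift s
    have h2 := hmax (show s + n * (2 * Real.pi * Complex.I) ∈ K from
      ⟨by rw [hn3]; exact hs, by rw [hn3]; exact hs2, hn1, hn2⟩)
    have h3 : Real.log (Θ (s + n * (2 * Real.pi * Complex.I))) *
        (X - (s + n * (2 * Real.pi * Complex.I)).re) ≤ B0 * δ := h2
    rw [hper s hs n, hn3] at h3
    exact h3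
  have hBδ : X ^ 2 / 8 ≤ B0 * δ := by
    obtain ⟨s, hs, hs2⟩ := hgr (X / 2) (by
      have := le_abs_self r0
      linarith)
    have h2 := hmax' s (by rw [hs]; linarith) (by rw [hs]; linarith)
    rw [hs] at h2
    have h3 : Real.log c + X / 2 ≤ Real.log (Θ s) := by
      rw [← Real.log_exp (X / 2), ← Real.log_mul hc0.ne' (Real.exp_ne_zero _)]
      exact Real.log_le_log (by positivity) hs2
    have h4 := neg_abs_le (Real.log c)
    have h5 : X / 4 ≤ Real.log (Θ s) := by linarith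
    nlinarith
  have hBδp : 0 < B0 * δ := lt_of_lt_of_le (by positivity) hBδ
  have hδp : 0 < δ := by
    by_contra hcon
    push Not at hcon
    nlinarith
  have hB8 : X / 8 ≤ B0 := by
    by_contra hcon
    push Not at hcon
    have h2 : B0 * δ ≤ B0 * X := mul_le_mul_of_nonneg_left hδX hB00
    nlinarith
  have hB0p : 0 < B0 := by linarith
  set a : ℝ := B0 / δ with ha
  have hap : 0 < a := by positivity
  have haδ : a * δ = B0 := by rw [ha]; field_simp
  have ha8 : 1 / 8 ≤ a := by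
    rw [ha, le_div_iff₀ hδp]
    have h2 : δ * δ ≤ X * X := mul_le_mul hδX hδX hδp.le (by linarith)
    by_contra hcon
    push Not at hcon
    have h3 : B0 * δ < 1 / 8 * δ * δ := mul_lt_mul_of_pos_right hcon hδp
    nlinarith
  have haB : a ≤ B0 ^ 2 := by
    rw [ha, div_le_iff₀ hδp]
    have h2 : 1 ≤ B0 * δ := by nlinarith
    nlinarith
  have hMp := abs_nonneg M0
  have hBB := hBs B0 (by linarith)
  set ℓ : ℝ := C1 * (1 + Real.log (2 + a)) with hℓ
  have hla0 : 0 ≤ Real.log (2 + a) := Real.log_nonneg (by linarith)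
  have hℓ0 : 0 ≤ ℓ := by positivity
  have hℓB : ℓ ≤ C1 * (1 + Real.log (2 + B0 ^ 2)) := by
    refine mul_le_mul_of_nonneg_left ?_ hC1.le
    have := Real.log_le_log (by linarith : 0 < 2 + a) (by linarith : 2 + a ≤ 2 + B0 ^ 2)
    linarith
  have hℓ2 : ℓ ^ 2 ≤ min (ε / 2) (1 / 4) * B0 := (pow_le_pow_left₀ hℓ0 hℓB 2).trans hBB
  have hℓ2a : ℓ ^ 2 ≤ ε / 2 * B0 := hℓ2.trans (mul_le_mul_of_nonneg_right (min_le_left _ _) hB00)
  have hℓ2b : ℓ ^ 2 ≤ 1 / 4 * B0 := hℓ2.trans (mul_le_mul_of_nonneg_right (min_le_right _ _) hB00)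
  have hℓB2 : ℓ ≤ B0 / 2 := by
    have h2 : ℓ ^ 2 ≤ (B0 / 2) ^ 2 := by nlinarith
    exact abs_le_of_sq_le_sq' h2 (by linarith) |>.2
  have hℓa : ℓ / a ≤ 17 * C1 := by
    rw [div_le_iff₀ hap, hℓ]
    have h2 : Real.log (2 + a) ≤ 1 + a := by
      have := Real.log_le_sub_one_of_pos (by linarith : 0 < 2 + a)
      linarith
    have h3 : 1 + Real.log (2 + a) ≤ 17 * a := by linarith
    calc C1 * (1 + Real.log (2 + a)) ≤ C1 * (17 * a) := mul_le_mul_of_nonneg_left h3 hC1.le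
      _ = 17 * C1 * a := by ring
  have hs017 : 17 * C1 + Sm ≤ s0.re := by
    by_contra hcon
    push Not at hcon
    have h3 := hM0 s0 ⟨hs1, hcon.le, hsi, hsi2⟩
    rw [Real.norm_of_nonneg (hpos s0 hs1).le, hΘ0] at h3
    have h4 := Real.add_one_le_exp B0
    have h5 := le_abs_self M0
    linarith
  refine ⟨s0, a, hs017, hsi, hsi2, ha8, ?_, ?_, ?_⟩
  · have h2 := hBe B0 (by linarith)
    have h3 : Sb * (1 + s0.re) ≤ Sb * (1 + 8 * B0) := mul_le_mul_of_nonneg_left (by linarith) hSb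
    rw [hΘ0]
    calc Sb * (1 + s0.re) * Real.exp ℓ ≤ Real.exp (B0 / 2) * Real.exp (B0 / 2) :=
          mul_le_mul (h3.trans h2) (Real.exp_le_exp.2 hℓB2) (Real.exp_pos _).le (Real.exp_pos _).le
      _ = Real.exp B0 := by
          rw [← Real.exp_add]
          congr 1
          ring
  · intro s hs
    have h2 := hmax' s (by rw [hs]; exact hs1) (by rw [hs]; exact hsX)
    rw [hs] at h2
    have h3 : Real.log (Θ s) ≤ B0 := le_of_mul_le_mul_right h2 hδp
    rw [hΘ0]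
    exact (Real.log_le_iff_le_exp (hpos s (by rw [hs]; exact hs1))).1 h3
  · intro w hw
    have hwa : ‖w‖ / a ≤ 17 * C1 := (div_le_div_of_nonneg_right hw hap.le).trans hℓa
    refine ⟨hwa, ?_⟩
    set x : ℝ := w.re with hx
    have hxw : |x| ≤ ‖w‖ := Complex.abs_re_le_norm w
    have hxB : |x| ≤ B0 / 2 := by linarith
    have hxl := abs_le.1 hxB
    have hsre : (s0 + w / a).re = s0.re + x / a := by
      rw [Complex.add_re, Complex.div_ofReal_re]
    have hxa : |x / a| ≤ 17 * C1 := by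
      rw [abs_div, abs_of_pos hap]
      exact (div_le_div_of_nonneg_right hxw hap.le).trans hwa
    have hxa' := abs_le.1 hxa
    have hge1 : 1 ≤ (s0 + w / a).re := by
      rw [hsre]
      linarith
    have h2 := hmax' (s0 + w / a) hge1 (by
      rw [hsre]
      have h3 : x / a ≤ δ := by
        rw [div_le_iff₀ hap]
        have : δ * a = B0 := by rw [mul_comm]; exact haδ
        linarith
      linarith)
    rw [hsre] at h2
    set lT : ℝ := Real.log (Θ (s0 + w / a)) with hlT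
    set y : ℝ := x / B0 with hy
    have hyx : x = y * B0 := by rw [hy]; field_simp
    have hy1 : -(1 / 2) ≤ y := by
      rw [hy, le_div_iff₀ hB0p]
      linarith
    have hy2 : y ≤ 1 / 2 := by
      rw [hy, div_le_iff₀ hB0p]
      linarith
    have h3 : X - (s0.re + x / a) = δ * (1 - y) := by
      have h4 : x / a = δ * y := by
        rw [hyx, ← haδ]
        field_simp
      rw [h4, hδ]
      ring
    rw [h3] at h2
    have h4 : lT * (1 - y) ≤ B0 := by
      have h5 : (lT * (1 - y)) * δ ≤ B0 * δ := by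
        refine le_trans (le_of_eq ?_) h2
        ring
      exact le_of_mul_le_mul_right h5 hδp
    have h5 : lT ≤ B0 * (1 + y + 2 * y ^ 2) := by
      have h6 : 1 ≤ (1 + y + 2 * y ^ 2) * (1 - y) := by nlinarith [sq_nonneg y]
      have h7 : 0 < 1 - y := by linarith
      have h8 : lT * (1 - y) ≤ (B0 * (1 + y + 2 * y ^ 2)) * (1 - y) := by nlinarith
      exact le_of_mul_le_mul_right h8 h7
    have h6 : B0 * (2 * y ^ 2) ≤ ε := by
      have h7 : B0 * (2 * y ^ 2) * B0 = 2 * x ^ 2 := by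
        rw [hyx]
        ring
      have h8 : x ^ 2 ≤ ℓ ^ 2 := by
        rw [← sq_abs x]
        exact pow_le_pow_left₀ (abs_nonneg _) (hxw.trans hw) 2
      have h9 : B0 * (2 * y ^ 2) * B0 ≤ ε * B0 := by
        rw [h7]
        linarith
      exact le_of_mul_le_mul_right h9 hB0p
    have h7 : lT ≤ B0 + (x + ε) := by
      have h8 : B0 * (1 + y + 2 * y ^ 2) = B0 + y * B0 + B0 * (2 * y ^ 2) := by ring
      rw [h8, ← hyx] at h5
      linarith
    rw [hΘ0, ← Real.exp_add]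
    exact (Real.log_le_iff_le_exp (hpos _ hge1)).1 h7

/-- a vertical line without zeros -/
theorem exists_line {γ : ℂ → ℂ} (hγ : DifferentiableOn ℂ γ {s : ℂ | 0 < s.re})
    (hper : ∀ s : ℂ, 0 < s.re → ∀ n : ℤ, γ (s + n * (2 * Real.pi * Complex.I)) = γ s)
    (hne : ∃ s : ℂ, 0 < s.re ∧ γ s ≠ 0) : ∃ σ g0 : ℝ, 1 < σ ∧ σ < 2 ∧ 0 < g0 ∧
      ∀ s : ℂ, s.re = σ → g0 ≤ ‖γ s‖ := by
  have hopen : IsOpen {s : ℂ | 0 < s.re} := isOpen_lt continuous_const Complex.continuous_re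
  have han : AnalyticOnNhd ℂ γ {s : ℂ | 0 < s.re} := hγ.analyticOnNhd hopen
  have hconn : IsPreconnected {s : ℂ | 0 < s.re} := (convex_halfSpace_re_gt 0).isPreconnected
  set Z : Set ℂ := {s : ℂ | (1 ≤ s.re ∧ s.re ≤ 2 ∧ 0 ≤ s.im ∧ s.im ≤ 2 * Real.pi) ∧ γ s = 0} with hZ
  have hfin : Z.Finite := by
    by_contra hinf
    obtain ⟨x, hx, hacc⟩ := Set.Infinite.exists_accPt_of_subset_isCompact
      (s := Z) hinf (isCompact_box 1 2) fun s hs => hs.1
    rw [accPt_iff_frequently_nhdsNE] at hacc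
    have hx0 : x ∈ {s : ℂ | 0 < s.re} := by
      have : 1 ≤ x.re := hx.1
      show 0 < x.re
      linarith
    have h1 := han.eqOn_zero_of_preconnected_of_frequently_eq_zero hconn hx0
      (hacc.mono fun y hy => hy.2)
    obtain ⟨s, hs, hs0⟩ := hne
    exact hs0 (h1 hs)
  have hIoo : (Ioo (1 : ℝ) 2).Infinite := Ioo_infinite (by norm_num)
  obtain ⟨σ, hσ, hσZ⟩ := (hIoo.sdiff (hfin.image Complex.re)).nonempty
  have hseg : IsCompact {s : ℂ | σ ≤ s.re ∧ s.re ≤ σ ∧ 0 ≤ s.im ∧ s.im ≤ 2 * Real.pi} :=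
    isCompact_box σ σ
  have hne' : {s : ℂ | σ ≤ s.re ∧ s.re ≤ σ ∧ 0 ≤ s.im ∧ s.im ≤ 2 * Real.pi}.Nonempty :=
    ⟨(σ : ℂ), by simp, by simp, by simp, by simp; positivity⟩
  obtain ⟨x, hx, hmin⟩ := hseg.exists_isMinOn hne' (f := fun s => ‖γ s‖)
    ((hγ.continuousOn.mono fun s hs => by
      show 0 < s.re
      linarith [hs.1, hσ.1]).norm)
  refine ⟨σ, ‖γ x‖, hσ.1, hσ.2, ?_, fun s hs => ?_⟩
  · rw [norm_pos_iff]
    intro h0
    apply hσZ
    refine ⟨x, ⟨⟨?_, ?_, hx.2.2.1, hx.2.2.2⟩, h0⟩, le_antisymm hx.2.1 hx.1⟩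
    · linarith [hx.1, hσ.1]
    · linarith [hx.2.1, hσ.2]
  · obtain ⟨n, hn1, hn2, hn3⟩ := exists_shift s
    have h1 := hmin (show s + n * (2 * Real.pi * Complex.I) ∈ _ from
      ⟨by rw [hn3, hs], by rw [hn3, hs], hn1, hn2⟩)
    have h2 : ‖γ x‖ ≤ ‖γ (s + n * (2 * Real.pi * Complex.I))‖ := h1
    rw [hper s (by rw [hs]; linarith [hσ.1])] at h2
    exact h2

end Pool.Agent.K9h3.TC
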