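import Pool.Agent.K9h3.TC.PunA

/-!
# The rotation argument on a half-plane
-/

set_option autoImplicit false

open Set Filter Topology Metric

namespace Pool.Agent.K9h3.TC

/-- **rotation argument** for periodic functions on a half-plane -/
theorem rotP {γ : ℂ → ℂ} (hγ : DifferentiableOn ℂ γ {s : ℂ | 0 < s.re})
    (hper : ∀ s : ℂ, 0 < s.re → ∀ n : ℤ, γ (s + n * (2 * Real.pi * Complex.I)) = γ s)
    {σ1 σ2 M1 g0 : ℝ} (hσ1 : 0 < σ1) (hσ12 : σ1 < σ2) (hg0 : 0 < g0) (hM10 : 0 ≤ M1)
    (hM1 : ∀ s : ℂ, s.re = σ1 → ‖γ s‖ ≤ Real.exp M1) (hg : ∀ s : ℂ, s.re = σ2 → g0 ≤ ‖γ s‖)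
    {s0 : ℂ} (hs0 : σ2 < s0.re) {a M S : ℝ} (ha : 0 < a) {m : ℕ} (hm : Real.pi * a ≤ m)
    (hM0 : 0 ≤ M) (hM : ∀ s : ℂ, s.re = s0.re → ‖γ s‖ ≤ Real.exp M)
    (hS : ∀ y : ℝ, |y| ≤ 1 → ‖γ (s0 + y * Complex.I / a)‖ ≤ Real.exp (-S))
    (hSM : m * M ≤ S / 2) :
    (σ2 - σ1) / s0.re * (S / 2) ≤ m * (M1 - Real.log g0) := by
  have hπ := Real.pi_pos
  have hmp : (0 : ℝ) < m := lt_of_lt_of_le (by positivity) hm
  have hm0 : m ≠ 0 := by
    rintro rfl
    simp at hmp
  have hmc : (m : ℂ) ≠ 0 := by exact_mod_cast hm0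
  have hopen : IsOpen {s : ℂ | 0 < s.re} := isOpen_lt continuous_const Complex.continuous_re
  set sh : ℕ → ℂ := fun j => 2 * Real.pi * j / m * Complex.I with hsh
  have hshre : ∀ (s : ℂ) (j : ℕ), (s + sh j).re = s.re := by
    intro s j
    have h1 : sh j = ((2 * Real.pi * j / m : ℝ) : ℂ) * Complex.I := by
      rw [hsh]
      push_cast
      ring
    rw [Complex.add_re, h1]
    simp
  set Pr : ℂ → ℂ := fun s => ∏ j ∈ Finset.range m, γ (s + sh j) with hPr
  have hPrd : DifferentiableOn ℂ Pr {s : ℂ | 0 < s.re} := by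
    refine DifferentiableOn.fun_finsetProd fun j _ => ?_
    refine hγ.comp (by fun_prop) fun s hs => ?_
    show 0 < (s + sh j).re
    rw [hshre]
    exact hs
  -- the outer line
  have hcirc : ∀ s : ℂ, s.re = s0.re → ‖Pr s‖ ≤ Real.exp (m * M - S) := by
    intro s hs
    set θ : ℝ := (s - s0).im with hθ
    have hsθ : s = s0 + θ * Complex.I := by
      apply Complex.ext
      · simp [hs]
      · rw [hθ]
        simp
    set J : ℤ := round (-(θ * m / (2 * Real.pi))) with hJ
    have hJb : |-(θ * m / (2 * Real.pi)) - J| ≤ 1 / 2 := abs_sub_round _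
    have hm' : (m : ℤ) ≠ 0 := by exact_mod_cast hm0
    set j : ℕ := (J % m).toNat with hj
    have hj0 : 0 ≤ J % m := Int.emod_nonneg _ hm'
    have hjm : J % m < m := Int.emod_lt_of_pos _ (by positivity)
    have hjJ : (j : ℤ) = J % m := Int.toNat_of_nonneg hj0
    have hjlt : j < m := by
      have : (j : ℤ) < m := by rw [hjJ]; exact hjm
      exact_mod_cast this
    have hJdec : (J : ℂ) = m * (J / m : ℤ) + j := by
      have h2 : J = m * (J / m) + j := by
        rw [hjJ]
        exact (Int.mul_ediv_add_emod J m).symm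
      have h3 : (J : ℂ) = ((m * (J / m) + j : ℤ) : ℂ) := by rw [← h2]
      rw [h3]
      push_cast
      ring
    set y : ℝ := a * (θ + 2 * Real.pi * J / m) with hy
    have hy1 : |y| ≤ 1 := by
      have h1 : θ + 2 * Real.pi * J / m = -(2 * Real.pi / m) * (-(θ * m / (2 * Real.pi)) - J) := by
        field_simp
        ring
      rw [hy, h1, abs_mul, abs_mul, abs_neg, abs_of_pos ha, abs_of_pos (by positivity)]
      have h2 : 2 * Real.pi / m * |-(θ * m / (2 * Real.pi)) - J| ≤ 2 * Real.pi / m * (1 / 2) :=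
        mul_le_mul_of_nonneg_left hJb (by positivity)
      have h3 : a * (2 * Real.pi / m * (1 / 2)) ≤ 1 := by
        have : a * (2 * Real.pi / m * (1 / 2)) = (Real.pi * a) / m := by ring
        rw [this, div_le_one hmp]
        exact hm
      exact (mul_le_mul_of_nonneg_left h2 ha.le).trans h3
    have hs0p : 0 < s0.re := by linarith
    have hgood : ‖γ (s + sh j)‖ ≤ Real.exp (-S) := by
      have h1 : s + sh j + (J / m : ℤ) * (2 * Real.pi * Complex.I) =
          s0 + y * Complex.I / a := by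
        have hac : (a : ℂ) ≠ 0 := by exact_mod_cast ha.ne'
        have h2 : (y : ℂ) = a * (θ + 2 * Real.pi * J / m) := by
          rw [hy]
          push_cast
          ring
        rw [h2, hJdec]
        conv_lhs => rw [hsθ]
        rw [hsh]
        simp only
        field_simp
        ring
      have h2 := hper (s + sh j) (by rw [hshre, hs]; exact hs0p) (J / m)
      rw [h1] at h2
      rw [← h2]
      exact hS y hy1
    have hall : ∀ i, ‖γ (s + sh i)‖ ≤ Real.exp M := by
      intro i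
      apply hM
      rw [hshre, hs]
    have hjmem : j ∈ Finset.range m := Finset.mem_range.2 hjlt
    show ‖∏ j ∈ Finset.range m, γ (s + sh j)‖ ≤ _
    rw [norm_prod, ← Finset.mul_prod_erase _ _ hjmem]
    have h1 : ∏ i ∈ (Finset.range m).erase j, ‖γ (s + sh i)‖ ≤
        ∏ _i ∈ (Finset.range m).erase j, Real.exp M :=
      Finset.prod_le_prod (fun i _ => norm_nonneg _) fun i _ => hall i
    rw [Finset.prod_const, Finset.card_erase_of_mem hjmem, Finset.card_range,
      ← Real.exp_nat_mul] at h1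
    calc ‖γ (s + sh j)‖ * ∏ i ∈ (Finset.range m).erase j, ‖γ (s + sh i)‖ ≤
        Real.exp (-S) * Real.exp ((m - 1 : ℕ) * M) :=
          mul_le_mul hgood h1 (Finset.prod_nonneg fun i _ => norm_nonneg _) (Real.exp_pos _).le
      _ ≤ Real.exp (m * M - S) := by
          rw [← Real.exp_add]
          apply Real.exp_le_exp.2
          have h2 : ((m - 1 : ℕ) : ℝ) ≤ m := by exact_mod_cast Nat.sub_le m 1
          have h3 : ((m - 1 : ℕ) : ℝ) * M ≤ m * M := mul_le_mul_of_nonneg_right h2 hM0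
          linarith
  -- the inner line
  have hinner : ∀ s : ℂ, s.re = σ1 → ‖Pr s‖ ≤ Real.exp (m * M1) := by
    intro s hs
    show ‖∏ j ∈ Finset.range m, γ (s + sh j)‖ ≤ _
    rw [norm_prod]
    have h1 : ∏ i ∈ Finset.range m, ‖γ (s + sh i)‖ ≤ ∏ _i ∈ Finset.range m, Real.exp M1 :=
      Finset.prod_le_prod (fun i _ => norm_nonneg _) fun i _ => hM1 _ (by rw [hshre, hs])
    rw [Finset.prod_const, Finset.card_range, ← Real.exp_nat_mul] at h1
    exact h1
  -- boundedness
  have hbdd : ∃ C, ∀ s : ℂ, σ1 ≤ s.re → s.re ≤ s0.re → ‖γ s‖ ≤ C := by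
    obtain ⟨C, hC⟩ := (isCompact_box σ1 s0.re).exists_bound_of_continuousOn
      (hγ.continuousOn.mono fun s hs => by
        show 0 < s.re
        linarith [hs.1])
    refine ⟨C, fun s h1 h2 => ?_⟩
    obtain ⟨n, hn1, hn2, hn3⟩ := exists_shift s
    have h3 := hC _ ⟨by rw [hn3]; exact h1, by rw [hn3]; exact h2, hn1, hn2⟩
    rw [hper s (by linarith)] at h3
    exact h3
  obtain ⟨C, hC⟩ := hbdd
  have hlt : σ1 < s0.re := by linarith
  have h3l := Complex.HadamardThreeLines.norm_le_interp_of_mem_verticalClosedStrip' (f := Pr)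
    (z := (σ2 : ℂ)) (a := Real.exp (m * M1)) (b := Real.exp (m * M - S)) hlt
    ⟨by rw [Complex.ofReal_re]; exact hσ12.le, by rw [Complex.ofReal_re]; exact hs0.le⟩ (by
      apply DifferentiableOn.diffContOnCl
      refine hPrd.mono ?_
      have hcl : closure (Complex.HadamardThreeLines.verticalStrip σ1 s0.re) ⊆
          {s : ℂ | σ1 ≤ s.re} := by
        apply closure_minimal
        · intro s hs
          exact hs.1.le
        · exact isClosed_le continuous_const Complex.continuous_re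
      intro s hs
      have h1 : σ1 ≤ s.re := hcl hs
      show 0 < s.re
      linarith) (by
      refine ⟨(max C 0) ^ m, ?_⟩
      rintro _ ⟨s, hs, rfl⟩
      show ‖∏ j ∈ Finset.range m, γ (s + sh j)‖ ≤ _
      rw [norm_prod]
      have h1 : ∏ i ∈ Finset.range m, ‖γ (s + sh i)‖ ≤ ∏ _i ∈ Finset.range m, max C 0 :=
        Finset.prod_le_prod (fun i _ => norm_nonneg _) fun i _ =>
          (hC _ (by rw [hshre]; exact hs.1) (by rw [hshre]; exact hs.2)).trans (le_max_left _ _)
      rw [Finset.prod_const, Finset.card_range] at h1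
      exact h1) (fun s hs => hinner s hs) (fun s hs => hcirc s hs)
  rw [Complex.ofReal_re, ← Real.exp_mul, ← Real.exp_mul, ← Real.exp_add] at h3l
  have hlow : g0 ^ m ≤ ‖Pr σ2‖ := by
    show _ ≤ ‖∏ j ∈ Finset.range m, γ (σ2 + sh j)‖
    rw [norm_prod]
    have h1 : ∏ _i ∈ Finset.range m, g0 ≤ ∏ i ∈ Finset.range m, ‖γ (σ2 + sh i)‖ :=
      Finset.prod_le_prod (fun i _ => hg0.le) fun i _ => hg _ (by rw [hshre, Complex.ofReal_re])
    rw [Finset.prod_const, Finset.card_range] at h1
    exact h1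
  have h1 := Real.log_le_log (by positivity) (hlow.trans h3l)
  rw [Real.log_pow, Real.log_exp] at h1
  set θ : ℝ := (σ2 - σ1) / (s0.re - σ1) with hθ
  have hθ0 : 0 ≤ θ := div_nonneg (by linarith) (by linarith)
  have hθ1 : (σ2 - σ1) / s0.re ≤ θ := by
    rw [hθ]
    apply div_le_div_of_nonneg_left (by linarith) (by linarith) (by linarith)
  have hS0 : 0 ≤ S / 2 := by
    have : 0 ≤ m * M := by positivity
    linarith
  have h2 : θ * (S / 2) ≤ θ * (S - m * M) := mul_le_mul_of_nonneg_left (by linarith) hθ0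
  have h3 : (σ2 - σ1) / s0.re * (S / 2) ≤ θ * (S / 2) := mul_le_mul_of_nonneg_right hθ1 hS0
  have h4 : 0 ≤ θ * (m * M1) := by positivity
  linarith

end Pool.Agent.K9h3.TC
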