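import Pool.Agent.K9h3.TC.Base

/-!
# A touching lemma of Wiman–Valiron type
-/

set_option autoImplicit false

open Set Filter Topology Metric

namespace Pool.Agent.K9h3.TC

/-- growth of entire functions on circles -/
theorem circle_growth {h : ℂ → ℂ} (hh : Differentiable ℂ h) (hn : ∃ z, deriv h z ≠ 0) :
    ∃ c r0 : ℝ, 0 < c ∧ ∀ r, r0 ≤ r → ∃ z, ‖z‖ = r ∧ c * r ≤ ‖h z‖ := by
  obtain ⟨z1, hz1⟩ := hn
  have hd : 0 < ‖deriv h z1‖ := norm_pos_iff.2 hz1
  refine ⟨‖deriv h z1‖ / 2, 2 * ‖z1‖ + 1, by positivity, fun r hr => ?_⟩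
  have hz0 := norm_nonneg z1
  have hr0 : 0 < r := by linarith
  obtain ⟨z, hz, hmax⟩ := Complex.exists_mem_frontier_isMaxOn_norm (f := h)
    (isBounded_ball (x := (0 : ℂ)) (r := r)) ⟨0, mem_ball_self hr0⟩ (hh.diffContOnCl)
  rw [frontier_ball _ hr0.ne', mem_sphere_zero_iff_norm] at hz
  rw [closure_ball _ hr0.ne'] at hmax
  refine ⟨z, hz, ?_⟩
  have h1 := Complex.norm_deriv_le_of_forall_mem_sphere_norm_le (f := h) (c := z1) (R := r / 2)
    (C := ‖h z‖) (by linarith) hh.diffContOnCl fun w hw => by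
      refine hmax ?_
      rw [mem_sphere_iff_norm] at hw
      show w ∈ closedBall 0 r
      rw [mem_closedBall_zero_iff]
      have := norm_le_norm_add_norm_sub' w z1
      linarith
  rw [le_div_iff₀ (by linarith)] at h1
  linarith

theorem log_asymp {C1 η : ℝ} (hC1 : 0 < C1) (hη : 0 < η) : ∃ Bs : ℝ, 3 ≤ Bs ∧ ∀ B, Bs ≤ B →
    (C1 * (1 + Real.log (2 + B ^ 2))) ^ 2 ≤ η * B := by
  have h1 := (Real.isLittleO_pow_log_id_atTop (n := 2)).bound
    (show (0 : ℝ) < η / (16 * C1 ^ 2) by positivity)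
  obtain ⟨Bs, hBs⟩ := eventually_atTop.1 h1
  refine ⟨max Bs 3, le_max_right _ _, fun B hB => ?_⟩
  have hB3 : 3 ≤ B := (le_max_right _ _).trans hB
  have h2 := hBs B ((le_max_left _ _).trans hB)
  have hlog1 : 1 ≤ Real.log B := by
    rw [Real.le_log_iff_exp_le (by linarith)]
    have := Real.exp_one_lt_d9
    linarith
  have h3 : Real.log (2 + B ^ 2) ≤ 3 * Real.log B := by
    have h4 : Real.log (B ^ 3) = 3 * Real.log B := by
      rw [Real.log_pow]
      norm_num
    rw [← h4]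
    apply Real.log_le_log (by positivity)
    nlinarith [sq_nonneg (B - 1), mul_nonneg (sub_nonneg.2 hB3) (sq_nonneg B)]
  have h5 : 0 ≤ Real.log (2 + B ^ 2) := Real.log_nonneg (by nlinarith)
  have h6 : C1 * (1 + Real.log (2 + B ^ 2)) ≤ 4 * C1 * Real.log B := by nlinarith
  have h7 : (C1 * (1 + Real.log (2 + B ^ 2))) ^ 2 ≤ (4 * C1 * Real.log B) ^ 2 :=
    pow_le_pow_left₀ (by positivity) h6 2
  refine h7.trans ?_
  rw [id, Real.norm_of_nonneg (by positivity), Real.norm_of_nonneg (by linarith)] at h2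
  rw [div_mul_eq_mul_div, le_div_iff₀ (by positivity)] at h2
  linarith

/-- **touching lemma** -/
theorem touch {Θ : ℂ → ℝ} (hc : Continuous Θ) (h1 : ∀ z, 1 ≤ Θ z) {c r0 : ℝ} (hc0 : 0 < c)
    (hgr : ∀ r, r0 ≤ r → ∃ z, ‖z‖ = r ∧ c * r ≤ Θ z) {C1 ε Tm : ℝ} (hC1 : 0 < C1) (hε : 0 < ε) :
    ∃ (z0 : ℂ) (a : ℝ), z0 ≠ 0 ∧ 1 / 8 ≤ a ∧
      Tm * Real.exp (C1 * (1 + Real.log (2 + a))) ≤ Θ z0 ∧
      (∀ z, ‖z‖ = ‖z0‖ → Θ z ≤ Θ z0) ∧
      ∀ w : ℂ, ‖w‖ ≤ C1 * (1 + Real.log (2 + a)) →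
        Θ (z0 * Complex.exp (w / a)) ≤ Θ z0 * Real.exp (w.re + ε) := by
  have hpos : ∀ z, 0 < Θ z := fun z => by linarith [h1 z]
  obtain ⟨Bs, hBs3, hBs⟩ := log_asymp hC1 (η := min (ε / 2) (1 / 4)) (by positivity)
  obtain ⟨M0, hM0⟩ := (isCompact_closedBall (0 : ℂ) (Real.exp (17 * C1))).exists_bound_of_continuousOn
    hc.continuousOn
  set X : ℝ := 8 * (Bs + |M0| + 2 * |Tm|) + 2 * |r0| + 4 * |Real.log c| + 100 with hX
  have hX100 : 100 ≤ X := by
    have := abs_nonneg M0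
    have := abs_nonneg Tm
    have := abs_nonneg r0
    have := abs_nonneg (Real.log c)
    linarith
  have hXB : Bs + |M0| + 2 * |Tm| ≤ X / 8 := by
    have := abs_nonneg r0
    have := abs_nonneg (Real.log c)
    linarith
  have hXr : 2 * |r0| ≤ X := by
    have := abs_nonneg M0
    have := abs_nonneg Tm
    have := abs_nonneg (Real.log c)
    linarith
  have hXc : 4 * |Real.log c| ≤ X := by
    have := abs_nonneg M0
    have := abs_nonneg Tm
    have := abs_nonneg r0
    linarith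
  set K : Set ℂ := closedBall 0 (Real.exp X) ∩ {z | 1 ≤ ‖z‖} with hK
  have hKc : IsCompact K := (isCompact_closedBall _ _).inter_right
    (isClosed_le continuous_const continuous_norm)
  have hKm : ∀ z, 1 ≤ ‖z‖ → Real.log ‖z‖ ≤ X → z ∈ K := by
    intro z hz hz2
    refine ⟨?_, hz⟩
    rw [mem_closedBall_zero_iff]
    exact (Real.log_le_iff_le_exp (by linarith)).1 hz2
  have hK1 : (1 : ℂ) ∈ K := hKm 1 (by simp) (by simp; linarith)
  have hφc : ContinuousOn (fun z => Real.log (Θ z) * (X - Real.log ‖z‖)) K := by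
    refine ContinuousOn.mul ?_ (continuousOn_const.sub ?_)
    · exact hc.continuousOn.log fun z _ => (hpos z).ne'
    · exact continuous_norm.continuousOn.log fun z hz => by
        have : 1 ≤ ‖z‖ := hz.2
        linarith
  obtain ⟨z0, hz0K, hmax⟩ := hKc.exists_isMaxOn ⟨1, hK1⟩ hφc
  have hz1 : 1 ≤ ‖z0‖ := hz0K.2
  have hz0p : 0 < ‖z0‖ := by linarith
  set B0 : ℝ := Real.log (Θ z0) with hB0
  have hΘ0 : Θ z0 = Real.exp B0 := (Real.exp_log (hpos z0)).symm
  set δ : ℝ := X - Real.log ‖z0‖ with hδ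
  have hδX : δ ≤ X := by
    have := Real.log_nonneg hz1
    linarith
  have hB00 : 0 ≤ B0 := Real.log_nonneg (h1 z0)
  have hmax' : ∀ z, 1 ≤ ‖z‖ → Real.log ‖z‖ ≤ X → Real.log (Θ z) * (X - Real.log ‖z‖) ≤ B0 * δ :=
    fun z hz hz2 => hmax (hKm z hz hz2)
  have hBδ : X ^ 2 / 8 ≤ B0 * δ := by
    obtain ⟨z, hz, hz2⟩ := hgr (Real.exp (X / 2)) (by
      have := Real.add_one_le_exp (X / 2)
      have := le_abs_self r0
      linarith)
    have hlz : Real.log ‖z‖ = X / 2 := by rw [hz, Real.log_exp]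
    have h2 := hmax' z (by
      rw [hz]
      exact Real.one_le_exp (by linarith)) (by rw [hlz]; linarith)
    rw [hlz] at h2
    have h3 : Real.log c + X / 2 ≤ Real.log (Θ z) := by
      rw [← Real.log_exp (X / 2), ← Real.log_mul hc0.ne' (Real.exp_ne_zero _)]
      exact Real.log_le_log (by positivity) hz2
    have h4 := neg_abs_le (Real.log c)
    have h5 : X / 4 ≤ Real.log (Θ z) := by linarith
    nlinarith
  have hBδp : 0 < B0 * δ := lt_of_lt_of_le (by positivity) hBδ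
  have hδp : 0 < δ := by
    by_contra hcon
    push Not at hcon
    nlinarith
  have hB8 : X / 8 ≤ B0 := by
    by_contra hcon
    push Not at hcon
    have h2 : B0 * δ ≤ B0 * X := mul_le_mul_of_nonneg_left hδX hB00
    nlinarith
  have hB0p : 0 < B0 := by linarith
  set a : ℝ := B0 / δ with ha
  have hap : 0 < a := by positivity
  have haδ : a * δ = B0 := by rw [ha]; field_simp
  have ha8 : 1 / 8 ≤ a := by
    rw [ha, le_div_iff₀ hδp]
    have h2 : δ * δ ≤ X * X := mul_le_mul hδX hδX hδp.le (by linarith)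
    by_contra hcon
    push Not at hcon
    have h3 : B0 * δ < 1 / 8 * δ * δ := mul_lt_mul_of_pos_right hcon hδp
    nlinarith
  have haB : a ≤ B0 ^ 2 := by
    rw [ha, div_le_iff₀ hδp]
    have h2 : 1 ≤ B0 * δ := by nlinarith
    nlinarith
  have hMp := abs_nonneg M0
  have hTp := abs_nonneg Tm
  have hBB := hBs B0 (by linarith)
  set ℓ : ℝ := C1 * (1 + Real.log (2 + a)) with hℓ
  have hla0 : 0 ≤ Real.log (2 + a) := Real.log_nonneg (by linarith)
  have hℓ0 : 0 ≤ ℓ := by positivity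
  have hℓB : ℓ ≤ C1 * (1 + Real.log (2 + B0 ^ 2)) := by
    refine mul_le_mul_of_nonneg_left ?_ hC1.le
    have := Real.log_le_log (by linarith : 0 < 2 + a) (by linarith : 2 + a ≤ 2 + B0 ^ 2)
    linarith
  have hℓ2 : ℓ ^ 2 ≤ min (ε / 2) (1 / 4) * B0 := (pow_le_pow_left₀ hℓ0 hℓB 2).trans hBB
  have hℓ2a : ℓ ^ 2 ≤ ε / 2 * B0 := hℓ2.trans (mul_le_mul_of_nonneg_right (min_le_left _ _) hB00)
  have hℓ2b : ℓ ^ 2 ≤ 1 / 4 * B0 := hℓ2.trans (mul_le_mul_of_nonneg_right (min_le_right _ _) hB00)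
  have hℓB2 : ℓ ≤ B0 / 2 := by
    have h2 : ℓ ^ 2 ≤ (B0 / 2) ^ 2 := by nlinarith
    exact abs_le_of_sq_le_sq' h2 (by linarith) |>.2
  have hℓa : ℓ / a ≤ 17 * C1 := by
    rw [div_le_iff₀ hap, hℓ]
    have h2 : Real.log (2 + a) ≤ 1 + a := by
      have := Real.log_le_sub_one_of_pos (by linarith : 0 < 2 + a)
      linarith
    have h3 : 1 + Real.log (2 + a) ≤ 17 * a := by linarith
    calc C1 * (1 + Real.log (2 + a)) ≤ C1 * (17 * a) := mul_le_mul_of_nonneg_left h3 hC1.le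
      _ = 17 * C1 * a := by ring
  have hz017 : 17 * C1 ≤ Real.log ‖z0‖ := by
    by_contra hcon
    push Not at hcon
    have h2 : z0 ∈ closedBall (0 : ℂ) (Real.exp (17 * C1)) := by
      rw [mem_closedBall_zero_iff]
      exact (Real.log_le_iff_le_exp hz0p).1 hcon.le
    have h3 := hM0 z0 h2
    rw [Real.norm_of_nonneg (hpos z0).le, hΘ0] at h3
    have h4 := Real.add_one_le_exp B0
    have h5 := le_abs_self M0
    linarith
  refine ⟨z0, a, norm_pos_iff.1 hz0p, ha8, ?_, ?_, ?_⟩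
  · have h2 : Tm ≤ Real.exp (B0 / 2) := by
      have := Real.add_one_le_exp (B0 / 2)
      have := le_abs_self Tm
      linarith
    rw [hΘ0]
    calc Tm * Real.exp ℓ ≤ Real.exp (B0 / 2) * Real.exp (B0 / 2) := by
          gcongr
      _ = Real.exp B0 := by
          rw [← Real.exp_add]
          congr 1
          ring
  · intro z hz
    have h2 := hmax' z (by rw [hz]; exact hz1) (by rw [hz]; linarith)
    rw [hz] at h2
    have h3 : Real.log (Θ z) ≤ B0 := le_of_mul_le_mul_right h2 hδp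
    rw [hΘ0]
    exact (Real.log_le_iff_le_exp (hpos z)).1 h3
  · intro w hw
    set x : ℝ := w.re with hx
    have hxw : |x| ≤ ‖w‖ := Complex.abs_re_le_norm w
    have hxB : |x| ≤ B0 / 2 := by linarith
    have hxl := abs_le.1 hxB
    have hzn : ‖z0 * Complex.exp (w / a)‖ = ‖z0‖ * Real.exp (x / a) := by
      rw [norm_mul, Complex.norm_exp, Complex.div_ofReal_re]
    have hzl : Real.log ‖z0 * Complex.exp (w / a)‖ = Real.log ‖z0‖ + x / a := by
      rw [hzn, Real.log_mul hz0p.ne' (Real.exp_ne_zero _), Real.log_exp]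
    have hxa : |x / a| ≤ 17 * C1 := by
      rw [abs_div, abs_of_pos hap]
      refine le_trans ?_ hℓa
      exact div_le_div_of_nonneg_right (hxw.trans hw) hap.le
    have hxa' := abs_le.1 hxa
    have hnp : 0 < ‖z0 * Complex.exp (w / a)‖ := by
      rw [hzn]
      positivity
    have h2 := hmax' (z0 * Complex.exp (w / a)) (by
      have : 0 ≤ Real.log ‖z0 * Complex.exp (w / a)‖ := by
        rw [hzl]
        linarith
      by_contra hcon
      push Not at hcon
      have h3 := Real.log_neg hnp hcon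
      linarith) (by
      rw [hzl]
      have h3 : x / a ≤ δ := by
        rw [div_le_iff₀ hap]
        have : δ * a = B0 := by rw [mul_comm]; exact haδ
        linarith
      linarith)
    rw [hzl] at h2
    set lT : ℝ := Real.log (Θ (z0 * Complex.exp (w / a))) with hlT
    set y : ℝ := x / B0 with hy
    have hyx : x = y * B0 := by rw [hy]; field_simp
    have hy1 : -(1 / 2) ≤ y := by
      rw [hy, le_div_iff₀ hB0p]
      linarith
    have hy2 : y ≤ 1 / 2 := by
      rw [hy, div_le_iff₀ hB0p]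
      linarith
    have h3 : X - (Real.log ‖z0‖ + x / a) = δ * (1 - y) := by
      have h4 : x / a = δ * y := by
        rw [hyx, ← haδ]
        field_simp
      rw [h4, hδ]
      ring
    rw [h3] at h2
    have h4 : lT * (1 - y) ≤ B0 := by
      have h5 : (lT * (1 - y)) * δ ≤ B0 * δ := by
        refine le_trans (le_of_eq ?_) h2
        ring
      exact le_of_mul_le_mul_right h5 hδp
    have h5 : lT ≤ B0 * (1 + y + 2 * y ^ 2) := by
      have h6 : 1 ≤ (1 + y + 2 * y ^ 2) * (1 - y) := by nlinarith [sq_nonneg y]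
      have h7 : 0 < 1 - y := by linarith
      have h8 : lT * (1 - y) ≤ (B0 * (1 + y + 2 * y ^ 2)) * (1 - y) := by nlinarith
      exact le_of_mul_le_mul_right h8 h7
    have h6 : B0 * (2 * y ^ 2) ≤ ε := by
      have h7 : B0 * (2 * y ^ 2) * B0 = 2 * x ^ 2 := by
        rw [hyx]
        ring
      have h8 : x ^ 2 ≤ ℓ ^ 2 := by
        rw [← sq_abs x]
        exact pow_le_pow_left₀ (abs_nonneg _) (hxw.trans hw) 2
      have h9 : B0 * (2 * y ^ 2) * B0 ≤ ε * B0 := by
        rw [h7]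
        linarith
      exact le_of_mul_le_mul_right h9 hB0p
    have h7 : lT ≤ B0 + (x + ε) := by
      have h8 : B0 * (1 + y + 2 * y ^ 2) = B0 + y * B0 + B0 * (2 * y ^ 2) := by ring
      rw [h8, ← hyx] at h5
      linarith
    rw [hΘ0, ← Real.exp_add]
    exact (Real.log_le_iff_le_exp (hpos _)).1 h7

end Pool.Agent.K9h3.TC
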