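import Mathlib

/-!
# Logarithmic vector fields along a rational curve

Polynomial algebra: three vectors of polynomials which are tangent to two divisors at the two points
`0` and `∞` of the line have determinant zero if their total degree is small.
-/

set_option autoImplicit false

open Polynomial

namespace Pool.Agent.K9h3.TC.VG

section ring

variable {R : Type} [CommRing R]

/-- the dot product -/
def dp (u v : Fin 3 → R) : R := u 0 * v 0 + u 1 * v 1 + u 2 * v 2

/-- the cross product -/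
def cp (u v : Fin 3 → R) : Fin 3 → R := fun i =>
  if i = 0 then u 1 * v 2 - u 2 * v 1 else if i = 1 then u 2 * v 0 - u 0 * v 2
  else u 0 * v 1 - u 1 * v 0

theorem cp_zero (u v : Fin 3 → R) : cp u v 0 = u 1 * v 2 - u 2 * v 1 := rfl

theorem cp_one (u v : Fin 3 → R) : cp u v 1 = u 2 * v 0 - u 0 * v 2 := rfl

theorem cp_two (u v : Fin 3 → R) : cp u v 2 = u 0 * v 1 - u 1 * v 0 := rfl

/-- the determinant -/
def dd (u v w : Fin 3 → R) : R := dp (cp u v) w

theorem dd_eq (u v w : Fin 3 → R) : dd u v w = (u 1 * v 2 - u 2 * v 1) * w 0 +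
    (u 2 * v 0 - u 0 * v 2) * w 1 + (u 0 * v 1 - u 1 * v 0) * w 2 := rfl

theorem adj1 (g u v w : Fin 3 → R) (i : Fin 3) :
    g i * dd u v w = dp g u * cp v w i + dp g v * cp w u i + dp g w * cp u v i := by
  fin_cases i
  · show g 0 * dd u v w = dp g u * cp v w 0 + dp g v * cp w u 0 + dp g w * cp u v 0
    simp only [dd_eq, dp, cp_zero]
    ring
  · show g 1 * dd u v w = dp g u * cp v w 1 + dp g v * cp w u 1 + dp g w * cp u v 1
    simp only [dd_eq, dp, cp_one]
    ring
  · show g 2 * dd u v w = dp g u * cp v w 2 + dp g v * cp w u 2 + dp g w * cp u v 2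
    simp only [dd_eq, dp, cp_two]
    ring

theorem adj2 (g h u v w : Fin 3 → R) (i : Fin 3) :
    cp g h i * dd u v w = (dp g u * dp h v - dp g v * dp h u) * w i +
      (dp g v * dp h w - dp g w * dp h v) * u i + (dp g w * dp h u - dp g u * dp h w) * v i := by
  fin_cases i
  · show cp g h 0 * dd u v w = (dp g u * dp h v - dp g v * dp h u) * w 0 +
      (dp g v * dp h w - dp g w * dp h v) * u 0 + (dp g w * dp h u - dp g u * dp h w) * v 0
    simp only [dd_eq, dp, cp_zero]
    ring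
  · show cp g h 1 * dd u v w = (dp g u * dp h v - dp g v * dp h u) * w 1 +
      (dp g v * dp h w - dp g w * dp h v) * u 1 + (dp g w * dp h u - dp g u * dp h w) * v 1
    simp only [dd_eq, dp, cp_one]
    ring
  · show cp g h 2 * dd u v w = (dp g u * dp h v - dp g v * dp h u) * w 2 +
      (dp g v * dp h w - dp g w * dp h v) * u 2 + (dp g w * dp h u - dp g u * dp h w) * v 2
    simp only [dd_eq, dp, cp_two]
    ring

theorem dd_sum {ι : Type} (s : Finset ι) (u v w : Fin 3 → R) (M : ι → R) (y : ι → Fin 3 → R) :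
    dd u v (fun i => w i + ∑ j ∈ s, M j * y j i) = dd u v w + ∑ j ∈ s, M j * dd u v (y j) := by
  classical
  induction s using Finset.induction_on with
  | empty => simp [dd_eq]
  | insert j s hj ih =>
    rw [Finset.sum_insert hj]
    have h1 : dd u v (fun i => w i + ∑ j ∈ insert j s, M j * y j i) =
        dd u v (fun i => w i + ∑ j ∈ s, M j * y j i) + M j * dd u v (y j) := by
      simp only [dd_eq, Finset.sum_insert hj]
      ring
    rw [h1, ih]
    ring

theorem dp_sum {ι : Type} (s : Finset ι) (g w : Fin 3 → R) (M : ι → R) (y : ι → Fin 3 → R) :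
    dp g (fun i => w i + ∑ j ∈ s, M j * y j i) = dp g w + ∑ j ∈ s, M j * dp g (y j) := by
  classical
  induction s using Finset.induction_on with
  | empty => simp [dp]
  | insert j s hj ih =>
    rw [Finset.sum_insert hj]
    have h1 : dp g (fun i => w i + ∑ j ∈ insert j s, M j * y j i) =
        dp g (fun i => w i + ∑ j ∈ s, M j * y j i) + M j * dp g (y j) := by
      simp only [dp, Finset.sum_insert hj]
      ring
    rw [h1, ih]
    ring

end ring

theorem pow_dvd_right {p q : ℂ[X]} {n : ℕ} (hp : p.coeff 0 ≠ 0) (h : X ^ n ∣ p * q) :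
    X ^ n ∣ q :=
  Polynomial.prime_X.pow_dvd_of_dvd_mul_left n (fun h1 => hp (X_dvd_iff.1 h1)) h

/-- vanishing of the determinant at the point `0` -/
theorem dvd_dd {u v w g h : Fin 3 → ℂ[X]} {k l : ℕ}
    (gu : X ^ k ∣ dp g u) (gv : X ^ k ∣ dp g v) (gw : X ^ k ∣ dp g w)
    (hu : X ^ l ∣ dp h u) (hv : X ^ l ∣ dp h v) (hw : X ^ l ∣ dp h w)
    (h0 : k ≠ 0 → ∃ i, (g i).coeff 0 ≠ 0) (h1 : l ≠ 0 → ∃ i, (h i).coeff 0 ≠ 0)
    (h2 : k ≠ 0 → l ≠ 0 → ∃ i, (cp g h i).coeff 0 ≠ 0) : X ^ (k + l) ∣ dd u v w := by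
  rcases Nat.eq_zero_or_pos k with hk | hk
  · subst hk
    rcases Nat.eq_zero_or_pos l with hl | hl
    · subst hl
      simp
    · obtain ⟨i, hi⟩ := h1 hl.ne'
      rw [zero_add]
      refine pow_dvd_right hi ?_
      rw [adj1]
      exact dvd_add (dvd_add (hu.mul_right _) (hv.mul_right _)) (hw.mul_right _)
  · rcases Nat.eq_zero_or_pos l with hl | hl
    · subst hl
      obtain ⟨i, hi⟩ := h0 hk.ne'
      rw [add_zero]
      refine pow_dvd_right hi ?_
      rw [adj1]
      exact dvd_add (dvd_add (gu.mul_right _) (gv.mul_right _)) (gw.mul_right _)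
    · obtain ⟨i, hi⟩ := h2 hk.ne' hl.ne'
      refine pow_dvd_right hi ?_
      rw [adj2, pow_add]
      have e1 := dvd_sub (mul_dvd_mul gu hv) (mul_dvd_mul gv hu)
      have e2 := dvd_sub (mul_dvd_mul gv hw) (mul_dvd_mul gw hv)
      have e3 := dvd_sub (mul_dvd_mul gw hu) (mul_dvd_mul gu hw)
      exact dvd_add (dvd_add (e1.mul_right _) (e2.mul_right _)) (e3.mul_right _)

/-- a polynomial of degree at most `N` with too many zeros at `0` and `∞` vanishes -/
theorem eq_zero_of_orders {D : ℂ[X]} {N s s' : ℕ} (hN : D.natDegree ≤ N) (h0 : X ^ s ∣ D)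
    (h1 : X ^ s' ∣ reflect N D) (hlt : N < s + s') : D = 0 := by
  ext n
  rw [coeff_zero]
  rcases lt_or_ge n s with h | h
  · exact X_pow_dvd_iff.1 h0 n h
  · rcases lt_or_ge N n with h' | h'
    · exact coeff_eq_zero_of_natDegree_lt (lt_of_le_of_lt hN h')
    · have h2 := X_pow_dvd_iff.1 h1 (N - n) (by omega)
      rw [coeff_reflect, revAt_le (by omega)] at h2
      have e : N - (N - n) = n := by omega
      rwa [e] at h2

theorem deg_cp {u v : Fin 3 → ℂ[X]} {m n : ℕ} (hu : ∀ i, (u i).natDegree ≤ m)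
    (hv : ∀ i, (v i).natDegree ≤ n) (i : Fin 3) : (cp u v i).natDegree ≤ m + n := by
  have key : ∀ i j k l : Fin 3, (u i * v j - u k * v l).natDegree ≤ m + n := by
    intro i j k l
    refine (natDegree_sub_le _ _).trans (max_le ?_ ?_)
    · exact natDegree_mul_le.trans (add_le_add (hu _) (hv _))
    · exact natDegree_mul_le.trans (add_le_add (hu _) (hv _))
  fin_cases i
  · exact key _ _ _ _
  · exact key _ _ _ _
  · exact key _ _ _ _

theorem deg_dp {u v : Fin 3 → ℂ[X]} {m n : ℕ} (hu : ∀ i, (u i).natDegree ≤ m)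
    (hv : ∀ i, (v i).natDegree ≤ n) : (dp u v).natDegree ≤ m + n := by
  have key : ∀ i, (u i * v i).natDegree ≤ m + n := fun i =>
    natDegree_mul_le.trans (add_le_add (hu _) (hv _))
  exact (natDegree_add_le _ _).trans (max_le ((natDegree_add_le _ _).trans
    (max_le (key 0) (key 1))) (key 2))

theorem ref_cp {u v : Fin 3 → ℂ[X]} {m n : ℕ} (hu : ∀ i, (u i).natDegree ≤ m)
    (hv : ∀ i, (v i).natDegree ≤ n) (i : Fin 3) : reflect (m + n) (cp u v i) =
      cp (fun i => reflect m (u i)) (fun i => reflect n (v i)) i := by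
  have key : ∀ i j k l : Fin 3, reflect (m + n) (u i * v j - u k * v l) =
      reflect m (u i) * reflect n (v j) - reflect m (u k) * reflect n (v l) := by
    intro i j k l
    rw [reflect_sub, reflect_mul _ _ (hu _) (hv _), reflect_mul _ _ (hu _) (hv _)]
  fin_cases i
  · exact key _ _ _ _
  · exact key _ _ _ _
  · exact key _ _ _ _

theorem ref_dp {u v : Fin 3 → ℂ[X]} {m n : ℕ} (hu : ∀ i, (u i).natDegree ≤ m)
    (hv : ∀ i, (v i).natDegree ≤ n) : reflect (m + n) (dp u v) =
      dp (fun i => reflect m (u i)) (fun i => reflect n (v i)) := by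
  unfold dp
  rw [reflect_add, reflect_add, reflect_mul _ _ (hu _) (hv _), reflect_mul _ _ (hu _) (hv _),
    reflect_mul _ _ (hu _) (hv _)]

/-- **vanishing of the determinant of logarithmic vector fields of small degree** -/
theorem dd_zero {u v w g h : Fin 3 → ℂ[X]} {e r m n k l : ℕ} {c1 c2 d1 d2 : ℂ} {p q : ℂ[X]}
    (du : ∀ i, (u i).natDegree ≤ e) (dv : ∀ i, (v i).natDegree ≤ e)
    (dw : ∀ i, (w i).natDegree ≤ e + r) (dg : ∀ i, (g i).natDegree ≤ m)
    (dh : ∀ i, (h i).natDegree ≤ n)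
    (gu : dp g u = C c1 * X ^ k) (gv : dp g v = C c2 * X ^ k) (gw : dp g w = p * X ^ k)
    (dp' : p.natDegree ≤ r)
    (hu : dp h u = C d1 * X ^ l) (hv : dp h v = C d2 * X ^ l) (hw : dp h w = q * X ^ l)
    (dq : q.natDegree ≤ r) (hk : k ≤ m + e) (hl : l ≤ n + e)
    (z0 : k ≠ 0 → ∃ i, (g i).coeff 0 ≠ 0) (z1 : l ≠ 0 → ∃ i, (h i).coeff 0 ≠ 0)
    (z2 : k ≠ 0 → l ≠ 0 → ∃ i, (cp g h i).coeff 0 ≠ 0)
    (i0 : k ≠ m + e → ∃ i, (g i).coeff m ≠ 0) (i1 : l ≠ n + e → ∃ i, (h i).coeff n ≠ 0)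
    (i2 : k ≠ m + e → l ≠ n + e → ∃ i, (cp g h i).coeff (m + n) ≠ 0)
    (hlt : e + r < m + n) : dd u v w = 0 := by
  have hd : (dd u v w).natDegree ≤ (e + e) + (e + r) := deg_dp (deg_cp du dv) dw
  have hz : X ^ (k + l) ∣ dd u v w := by
    refine dvd_dd (g := g) (h := h) ?_ ?_ ?_ ?_ ?_ ?_ z0 z1 z2
    · rw [gu]; exact dvd_mul_left _ _
    · rw [gv]; exact dvd_mul_left _ _
    · rw [gw]; exact dvd_mul_left _ _
    · rw [hu]; exact dvd_mul_left _ _
    · rw [hv]; exact dvd_mul_left _ _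
    · rw [hw]; exact dvd_mul_left _ _
  have hrd : reflect ((e + e) + (e + r)) (dd u v w) = dd (fun i => reflect e (u i))
      (fun i => reflect e (v i)) (fun i => reflect (e + r) (w i)) := by
    show reflect _ (dp (cp u v) w) = _
    rw [ref_dp (deg_cp du dv) dw]
    show _ = dp (cp _ _) _
    congr 1
    funext i
    exact ref_cp du dv i
  -- the reflected products
  have rc : ∀ (c : ℂ) (N j : ℕ), j ≤ N → X ^ (N - j) ∣ reflect N (C c * X ^ j) := by
    intro c N j hj
    rw [reflect_C_mul_X_pow, revAt_le hj]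
    exact dvd_mul_left _ _
  have rp : ∀ (p : ℂ[X]) (N j : ℕ), p.natDegree ≤ r → j ≤ N →
      X ^ (N - j) ∣ reflect (N + r) (p * X ^ j) := by
    intro p N j hp hj
    have e1 : N + r = r + N := add_comm _ _
    rw [e1, reflect_mul _ _ hp (natDegree_X_pow_le j |>.trans hj)]
    have e2 : reflect N (X ^ j : ℂ[X]) = X ^ (N - j) := by
      have := reflect_C_mul_X_pow N j (c := (1 : ℂ))
      rw [C_1, one_mul, one_mul, revAt_le hj] at this
      exact this
    rw [e2]
    exact dvd_mul_left _ _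
  have hz' : X ^ ((m + e - k) + (n + e - l)) ∣ reflect ((e + e) + (e + r)) (dd u v w) := by
    rw [hrd]
    refine dvd_dd (g := fun i => reflect m (g i)) (h := fun i => reflect n (h i)) ?_ ?_ ?_ ?_ ?_ ?_
      ?_ ?_ ?_
    · rw [← ref_dp dg du, gu]; exact rc _ _ _ hk
    · rw [← ref_dp dg dv, gv]; exact rc _ _ _ hk
    · rw [← ref_dp dg dw, gw, ← add_assoc]; exact rp _ _ _ dp' hk
    · rw [← ref_dp dh du, hu]; exact rc _ _ _ hl
    · rw [← ref_dp dh dv, hv]; exact rc _ _ _ hl
    · rw [← ref_dp dh dw, hw, ← add_assoc]; exact rp _ _ _ dq hl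
    · intro hne
      obtain ⟨i, hi⟩ := i0 (by omega)
      refine ⟨i, ?_⟩
      show (reflect m (g i)).coeff 0 ≠ 0
      rw [coeff_reflect, revAt_le (Nat.zero_le _), Nat.sub_zero]
      exact hi
    · intro hne
      obtain ⟨i, hi⟩ := i1 (by omega)
      refine ⟨i, ?_⟩
      show (reflect n (h i)).coeff 0 ≠ 0
      rw [coeff_reflect, revAt_le (Nat.zero_le _), Nat.sub_zero]
      exact hi
    · intro hne hne'
      obtain ⟨i, hi⟩ := i2 (by omega) (by omega)
      refine ⟨i, ?_⟩
      rw [← ref_cp dg dh, coeff_reflect, revAt_le (Nat.zero_le _), Nat.sub_zero]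
      exact hi
  exact eq_zero_of_orders hd hz hz' (by omega)

end Pool.Agent.K9h3.TC.VG
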